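import Pool.Agent.Helper93.GP.St

/-! Gilbert-Pollak, chapter TOP, module BRIDGE: a bridge edge of a network. -/

namespace Pool.Agent.Helper93.GP

open Relation Classical Pool.Agent.Helper18.GP

/-- a connection uses the pair `e` at most once -/
private theorem use_once {X : Type} (E : List (X × X)) (e : X × X) {x y : X}
    (h : EqvGen (fun x y => (x, y) ∈ E) x y) :
    EqvGen (fun x y => (x, y) ∈ E.erase e) x y ∨
    (EqvGen (fun x y => (x, y) ∈ E.erase e) x e.1 ∧ EqvGen (fun x y => (x, y) ∈ E.erase e) e.2 y) ∨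
    (EqvGen (fun x y => (x, y) ∈ E.erase e) x e.2 ∧
      EqvGen (fun x y => (x, y) ∈ E.erase e) e.1 y) := by
  induction h with
  | rel x y h =>
    by_cases he : (x, y) = e
    · right; left
      rw [← he]
      exact ⟨EqvGen.refl _, EqvGen.refl _⟩
    · left
      exact EqvGen.rel _ _ ((List.mem_erase_of_ne he).2 h)
  | refl x => exact Or.inl (EqvGen.refl _)
  | symm x y _ ih =>
    rcases ih with h | ⟨h1, h2⟩ | ⟨h1, h2⟩
    · exact Or.inl (EqvGen.symm _ _ h)
    · exact Or.inr (Or.inr ⟨EqvGen.symm _ _ h2, EqvGen.symm _ _ h1⟩)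
    · exact Or.inr (Or.inl ⟨EqvGen.symm _ _ h2, EqvGen.symm _ _ h1⟩)
  | trans x y z _ _ ih1 ih2 =>
    rcases ih1 with h | ⟨h1, h2⟩ | ⟨h1, h2⟩ <;> rcases ih2 with k | ⟨k1, k2⟩ | ⟨k1, k2⟩
    · exact Or.inl (EqvGen.trans _ _ _ h k)
    · exact Or.inr (Or.inl ⟨EqvGen.trans _ _ _ h k1, k2⟩)
    · exact Or.inr (Or.inr ⟨EqvGen.trans _ _ _ h k1, k2⟩)
    · exact Or.inr (Or.inl ⟨h1, EqvGen.trans _ _ _ h2 k⟩)
    · exact Or.inr (Or.inl ⟨h1, k2⟩)
    · exact Or.inl (EqvGen.trans _ _ _ h1 k2)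
    · exact Or.inr (Or.inr ⟨h1, EqvGen.trans _ _ _ h2 k⟩)
    · exact Or.inl (EqvGen.trans _ _ _ h1 k2)
    · exact Or.inr (Or.inr ⟨h1, k2⟩)

private theorem zero_conn {X : Type} {S : Set X} {d : X → X → ℝ} (hd : PM S d) (E : List (X × X))
    (hE : ∀ e ∈ E, e.1 ∈ S ∧ e.2 ∈ S) (h0 : ∀ e ∈ E, d e.1 e.2 ≤ 0) {x y : X}
    (h : EqvGen (fun x y => (x, y) ∈ E) x y) : x = y ∨ (x ∈ S ∧ y ∈ S ∧ d x y = 0) := by
  induction h with
  | rel x y h =>
    have h1 := hE _ h
    exact Or.inr ⟨h1.1, h1.2, le_antisymm (h0 _ h) (hd.nonneg _ h1.1 _ h1.2)⟩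
  | refl x => exact Or.inl rfl
  | symm x y _ ih =>
    rcases ih with h | ⟨h1, h2, h3⟩
    · exact Or.inl h.symm
    · exact Or.inr ⟨h2, h1, by rw [hd.symm _ h2 _ h1]; exact h3⟩
  | trans x y z _ _ ih1 ih2 =>
    rcases ih1 with rfl | ⟨h1, h2, h3⟩
    · exact ih2
    · rcases ih2 with rfl | ⟨_, k2, k3⟩
      · exact Or.inr ⟨h1, h2, h3⟩
      · refine Or.inr ⟨h1, k2, le_antisymm ?_ (hd.nonneg _ h1 _ k2)⟩
        have := hd.tri _ h1 _ h2 _ k2
        linarith

theorem m_bridge : stBridge := by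
  intro X S d hd E hE w z hw hz hwz hpos
  -- a sublist of least length
  have hex : ∃ n, ∃ E' : List (X × X), E'.Sublist E ∧ E'.length = n ∧
      EqvGen (fun x y => (x, y) ∈ E') w z := ⟨_, E, List.Sublist.refl E, rfl, hwz⟩
  obtain ⟨E', hsub, hlen, hconn⟩ := Nat.find_spec hex
  have hmin := fun m hm => Nat.find_min hex (m := m) hm
  have hE' : ∀ e ∈ E', e.1 ∈ S ∧ e.2 ∈ S := fun e he => hE e (hsub.subset he)
  -- a pair of positive length
  obtain ⟨e, he, hpe⟩ : ∃ e ∈ E', 0 < d e.1 e.2 := by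
    by_contra hcon
    push Not at hcon
    rcases zero_conn hd E' hE' hcon hconn with h | ⟨_, _, h⟩
    · rw [h, hd.self _ hz] at hpos
      exact lt_irrefl _ hpos
    · rw [h] at hpos
      exact lt_irrefl _ hpos
  have hnot : ¬ EqvGen (fun x y => (x, y) ∈ E'.erase e) w z := by
    intro h
    have h1 : (E'.erase e).length < Nat.find hex := by
      have h2 := List.length_erase_of_mem he
      have h3 : 0 < E'.length := List.length_pos_of_mem he
      omega
    exact hmin _ h1 ⟨E'.erase e, (List.erase_sublist).trans hsub, rfl, h⟩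
  have hsub2 : (E'.erase e).Sublist (E.erase e) := hsub.erase e
  have hmono : ∀ {x y : X}, EqvGen (fun x y => (x, y) ∈ E'.erase e) x y →
      EqvGen (fun x y => (x, y) ∈ E.erase e) x y := by
    intro x y h
    have hle : (fun x y : X => (x, y) ∈ E'.erase e) ≤ (fun x y : X => (x, y) ∈ E.erase e) := by
      intro a b hab
      exact hsub2.subset hab
    exact EqvGen.mono hle _ _ h
  -- both ends of `e` are joined to `w` or `z`
  have hends : (EqvGen (fun x y => (x, y) ∈ E.erase e) e.1 w ∨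
      EqvGen (fun x y => (x, y) ∈ E.erase e) e.1 z) ∧
      (EqvGen (fun x y => (x, y) ∈ E.erase e) e.2 w ∨
      EqvGen (fun x y => (x, y) ∈ E.erase e) e.2 z) := by
    rcases use_once E' e hconn with h | ⟨h1, h2⟩ | ⟨h1, h2⟩
    · exact absurd h hnot
    · exact ⟨Or.inl (EqvGen.symm _ _ (hmono h1)), Or.inr (hmono h2)⟩
    · exact ⟨Or.inr (hmono h2), Or.inl (EqvGen.symm _ _ (hmono h1))⟩
  refine ⟨e, hsub.subset he, hpe, ?_⟩
  -- closedness
  have hclosed : ∀ {x y : X}, EqvGen (fun x y => (x, y) ∈ E) x y →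
      ((EqvGen (fun x y => (x, y) ∈ E.erase e) x w ∨ EqvGen (fun x y => (x, y) ∈ E.erase e) x z) ↔
      (EqvGen (fun x y => (x, y) ∈ E.erase e) y w ∨
        EqvGen (fun x y => (x, y) ∈ E.erase e) y z)) := by
    intro x y h
    induction h with
    | rel x y h =>
      by_cases hxy : (x, y) = e
      · rw [← hxy] at hends ⊢
        exact ⟨fun _ => hends.2, fun _ => hends.1⟩
      · have h1 : EqvGen (fun x y => (x, y) ∈ E.erase e) x y :=
          EqvGen.rel _ _ ((List.mem_erase_of_ne hxy).2 h)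
        have h2 := EqvGen.symm _ _ h1
        exact ⟨fun h3 => h3.imp (EqvGen.trans _ _ _ h2) (EqvGen.trans _ _ _ h2),
          fun h3 => h3.imp (EqvGen.trans _ _ _ h1) (EqvGen.trans _ _ _ h1)⟩
    | refl x => exact Iff.rfl
    | symm x y _ ih => exact ih.symm
    | trans x y z _ _ ih1 ih2 => exact ih1.trans ih2
  intro s hs
  exact (hclosed hs).1 (Or.inl (EqvGen.refl _))

end Pool.Agent.Helper93.GP
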