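import Pool.Agent.Helper93.GP.St
import Pool.Agent.Helper18.GP.Pinch1

/-!
# CHP and GEO: geodesic paths
-/

namespace Pool.Agent.Helper93.GP

open Relation Classical Pool.Agent.Helper18.GP

open scoped unitInterval

theorem m_chp : stChp := by
  intro N V G P M x y c h
  induction h with
  | nil x hx =>
    refine ⟨Path.refl x, Path.refl (0 : ℝ), ?_, fun _ => hx, ?_⟩
    · intro s t _; simp
    · intro s t _
      simp [M.self x hx]
  | cons x y z c hx hs hch ih =>
    have hy := hch.mem_left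
    obtain ⟨q, L, hL, hq, hd⟩ := ih
    obtain ⟨e, he⟩ : ∃ e : ℝ, e = ‖dev P x - dev P y‖ := ⟨_, rfl⟩
    rw [← he]
    have he0 : 0 ≤ e := he ▸ norm_nonneg _
    obtain ⟨p, hp⟩ : ∃ p : Path x y, ∀ t : I, p t = (1 - (t : ℝ)) • x + (t : ℝ) • y := by
      refine ⟨⟨⟨fun t => (1 - (t : ℝ)) • x + (t : ℝ) • y, by fun_prop⟩, by simp, by simp⟩, ?_⟩
      intro t; rfl
    obtain ⟨K, hK⟩ : ∃ K : Path (0 : ℝ) e, ∀ t : I, K t = (t : ℝ) * e := by
      refine ⟨⟨⟨fun t => (t : ℝ) * e, by fun_prop⟩, by simp, by simp⟩, ?_⟩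
      intro t; rfl
    obtain ⟨K', hK'⟩ : ∃ K' : Path e (e + c), ∀ t : I, K' t = e + L t := by
      refine ⟨⟨⟨fun t => e + L t, by fun_prop⟩, by simp, by simp⟩, ?_⟩
      intro t; rfl
    have hpm : ∀ t, p t ∈ Pts V G := fun t => by
      rw [hp]; exact seg_mem hx hy hs t.2.1 t.2.2
    have hpd : ∀ s t, s ≤ t → dK V G P (p s) (p t) = K t - K s := by
      intro s t hst
      have hst' : (s : ℝ) ≤ t := hst
      rw [hp, hp, d_seg M hx hy hs s.2.1 s.2.2 t.2.1 t.2.2, hK, hK, ← he, abs_sub_comm,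
        abs_of_nonneg (by linarith)]
      ring
    have hKm : ∀ s t, s ≤ t → K s ≤ K t := by
      intro s t hst
      have hst' : (s : ℝ) ≤ t := hst
      rw [hK, hK]
      exact mul_le_mul_of_nonneg_right hst' he0
    have hK'm : ∀ s t, s ≤ t → K' s ≤ K' t := by
      intro s t hst
      rw [hK', hK']
      have := hL hst
      linarith
    have hq' : ∀ s t, s ≤ t → dK V G P (q s) (q t) ≤ K' t - K' s := by
      intro s t hst
      have := hd s t hst
      rw [hK', hK']
      linarith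
    have key : ∀ s t : I, s ≤ t → (K.trans K') s ≤ (K.trans K') t ∧
        dK V G P ((p.trans q) s) ((p.trans q) t) ≤ (K.trans K') t - (K.trans K') s := by
      intro s t hst
      have hst' : (s : ℝ) ≤ t := hst
      rw [Path.trans_apply, Path.trans_apply, Path.trans_apply, Path.trans_apply]
      by_cases ht : (t : ℝ) ≤ 1 / 2
      · have hs' : (s : ℝ) ≤ 1 / 2 := hst'.trans ht
        rw [dif_pos ht, dif_pos hs', dif_pos ht, dif_pos hs']
        have hle : (⟨2 * (s : ℝ), (unitInterval.mul_pos_mem_iff zero_lt_two).2 ⟨s.2.1, hs'⟩⟩ : I) ≤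
            ⟨2 * (t : ℝ), (unitInterval.mul_pos_mem_iff zero_lt_two).2 ⟨t.2.1, ht⟩⟩ :=
          Subtype.mk_le_mk.2 (by linarith)
        exact ⟨hKm _ _ hle, (hpd _ _ hle).le⟩
      · rw [dif_neg ht, dif_neg ht]
        by_cases hs' : (s : ℝ) ≤ 1 / 2
        · rw [dif_pos hs', dif_pos hs']
          have a1 := hKm ⟨2 * (s : ℝ), (unitInterval.mul_pos_mem_iff zero_lt_two).2 ⟨s.2.1, hs'⟩⟩ 1
            unitInterval.le_one'
          have a2 := hK'm 0 ⟨2 * (t : ℝ) - 1, unitInterval.two_mul_sub_one_mem_iff.2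
            ⟨(not_le.1 ht).le, t.2.2⟩⟩ unitInterval.nonneg'
          have b1 := hpd ⟨2 * (s : ℝ), (unitInterval.mul_pos_mem_iff zero_lt_two).2 ⟨s.2.1, hs'⟩⟩ 1
            unitInterval.le_one'
          have b2 := hq' 0 ⟨2 * (t : ℝ) - 1, unitInterval.two_mul_sub_one_mem_iff.2
            ⟨(not_le.1 ht).le, t.2.2⟩⟩ unitInterval.nonneg'
          rw [K.target] at a1 b1
          rw [K'.source] at a2 b2
          rw [p.target] at b1
          rw [q.source] at b2
          have tr := M.tri _ (hpm ⟨2 * (s : ℝ), (unitInterval.mul_pos_mem_iff zero_lt_two).2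
            ⟨s.2.1, hs'⟩⟩) y hy _ (hq ⟨2 * (t : ℝ) - 1, unitInterval.two_mul_sub_one_mem_iff.2
            ⟨(not_le.1 ht).le, t.2.2⟩⟩)
          exact ⟨by linarith, by linarith⟩
        · rw [dif_neg hs', dif_neg hs']
          have hle : (⟨2 * (s : ℝ) - 1, unitInterval.two_mul_sub_one_mem_iff.2
              ⟨(not_le.1 hs').le, s.2.2⟩⟩ : I) ≤ ⟨2 * (t : ℝ) - 1,
              unitInterval.two_mul_sub_one_mem_iff.2 ⟨(not_le.1 ht).le, t.2.2⟩⟩ :=
            Subtype.mk_le_mk.2 (by linarith)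
          exact ⟨hK'm _ _ hle, hq' _ _ hle⟩
    refine ⟨p.trans q, K.trans K', fun s t hst => (key s t hst).1, ?_, fun s t hst =>
      (key s t hst).2⟩
    intro t
    rw [Path.trans_apply]
    split_ifs
    · exact hpm _
    · exact hq _

theorem m_geo (h : stChp) : stGeo := by
  intro N V G P M x hx y hy
  obtain ⟨p, L, hL, hp, hd⟩ := h N V G P M x y _ (M.att x hx y hy)
  have e1 : ∀ s t, s ≤ t → dK V G P x (p s) = L s ∧ dK V G P (p s) (p t) = L t - L s ∧
      dK V G P (p t) y = dK V G P x y - L t := by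
    intro s t hst
    have h1 := hd 0 s unitInterval.nonneg'
    have h2 := hd s t hst
    have h3 := hd t 1 unitInterval.le_one'
    rw [p.source, L.source] at h1
    rw [p.target, L.target] at h3
    have t1 := M.tri x hx (p s) (hp s) y hy
    have t2 := M.tri (p s) (hp s) (p t) (hp t) y hy
    refine ⟨by linarith, by linarith, by linarith⟩
  refine ⟨p, hp, ?_, ?_, ?_⟩
  · have : (fun t => dK V G P x (p t)) = fun t => L t := by
      funext t
      exact (e1 t t le_rfl).1
    rw [this]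
    exact L.continuous
  · intro s t hst
    rw [(e1 s t hst).1, (e1 t t le_rfl).1, (e1 s t hst).2.1]
    ring
  · intro s t hst
    rw [(e1 s s le_rfl).2.2, (e1 s t hst).2.1, (e1 s t hst).2.2]
    ring

end Pool.Agent.Helper93.GP
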