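import Pool.Agent.Helper93.GP.St

namespace Pool.Agent.Helper93.GP

open Relation Classical Pool.Agent.Helper18.GP

theorem m_clean : stClean := by
  intro X S d E w hw hE
  induction E with
  | nil =>
    exact ⟨[], by simp, rfl, fun x y h => h, by intro e he; simp at he⟩
  | cons e E ih =>
    obtain ⟨E', h1, h2, h3, h4⟩ := ih fun f hf => hE f (List.mem_cons_of_mem _ hf)
    have heS := hE e List.mem_cons_self
    have hlen : ∀ (f : X × X) (L : List (X × X)), nlen d (f :: L) = d f.1 f.2 + nlen d L := by
      intro f L; simp [nlen]
    by_cases hc : e.1 ≠ w ∧ e.2 ≠ w ∧ d e.1 e.2 = d e.1 w + d w e.2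
    · refine ⟨(e.1, w) :: (w, e.2) :: E', ?_, ?_, ?_, ?_⟩
      · intro f hf
        rcases List.mem_cons.1 hf with rfl | hf
        · exact ⟨heS.1, hw⟩
        · rcases List.mem_cons.1 hf with rfl | hf
          · exact ⟨hw, heS.2⟩
          · exact h1 f hf
      · rw [hlen, hlen, hlen, h2, hc.2.2]
        ring
      · have mono : ∀ x y, EqvGen (fun x y => (x, y) ∈ E') x y →
            EqvGen (fun x y => (x, y) ∈ (e.1, w) :: (w, e.2) :: E') x y := by
          intro x y h
          exact h.mono fun a b hab => List.mem_cons_of_mem _ (List.mem_cons_of_mem _ hab)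
        intro x y h
        induction h with
        | rel x y h =>
          rcases List.mem_cons.1 h with h | h
          · have hx : x = e.1 := by rw [← h]
            have hy : y = e.2 := by rw [← h]
            rw [hx, hy]
            exact EqvGen.trans _ w _ (EqvGen.rel _ _ List.mem_cons_self)
              (EqvGen.rel _ _ (List.mem_cons_of_mem _ List.mem_cons_self))
          · exact mono _ _ (h3 _ _ (EqvGen.rel _ _ h))
        | refl x => exact EqvGen.refl x
        | symm x y _ ih => exact EqvGen.symm _ _ ih
        | trans x y z _ _ ih1 ih2 => exact EqvGen.trans _ _ _ ih1 ih2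
      · intro f hf hf1 hf2
        rcases List.mem_cons.1 hf with rfl | hf
        · exact absurd rfl hf2
        · rcases List.mem_cons.1 hf with rfl | hf
          · exact absurd rfl hf1
          · exact h4 f hf hf1 hf2
    · refine ⟨e :: E', ?_, ?_, ?_, ?_⟩
      · intro f hf
        rcases List.mem_cons.1 hf with rfl | hf
        · exact heS
        · exact h1 f hf
      · rw [hlen, hlen, h2]
      · intro x y h
        induction h with
        | rel x y h =>
          rcases List.mem_cons.1 h with h | h
          · exact EqvGen.rel _ _ (by rw [h]; exact List.mem_cons_self)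
          · exact (h3 _ _ (EqvGen.rel _ _ h)).mono fun a b hab => List.mem_cons_of_mem _ hab
        | refl x => exact EqvGen.refl x
        | symm x y _ ih => exact EqvGen.symm _ _ ih
        | trans x y z _ _ ih1 ih2 => exact EqvGen.trans _ _ _ ih1 ih2
      · intro f hf hf1 hf2
        rcases List.mem_cons.1 hf with rfl | hf
        · exact fun h => hc ⟨hf1, hf2, h⟩
        · exact h4 f hf hf1 hf2

end Pool.Agent.Helper93.GP
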