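import Pool.Agent.Helper93.GP.St

/-!
# Gilbert-Pollak, chapter TOP, module INS
-/

namespace Pool.Agent.Helper93.GP

open Relation Classical Pool.Agent.Helper18.GP

open scoped unitInterval

private theorem closed_ins {X : Type} {r : X → X → Prop} {D : X → Prop}
    (h : ∀ x y, r x y → (D x ↔ D y)) {x y : X} (hxy : EqvGen r x y) : D x ↔ D y := by
  induction hxy with
  | rel x y h' => exact h x y h'
  | refl x => exact Iff.rfl
  | symm x y _ ih => exact ih.symm
  | trans x y z _ _ ih1 ih2 => exact ih1.trans ih2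

private theorem mono_ins {X : Type} {r s : X → X → Prop}
    (h : ∀ x y, r x y → EqvGen s x y) {x y : X} (hxy : EqvGen r x y) : EqvGen s x y := by
  induction hxy with
  | rel x y h' => exact h x y h'
  | refl x => exact EqvGen.refl _
  | symm x y _ ih => exact ih.symm
  | trans x y z _ _ ih1 ih2 => exact ih1.trans _ _ _ ih2

private theorem nlen_erase_ins {X : Type} (d : X → X → ℝ) {E : List (X × X)} {e : X × X}
    (he : e ∈ E) : nlen d E = d e.1 e.2 + nlen d (E.erase e) := by
  unfold nlen
  have := ((List.perm_cons_erase he).map fun e => d e.1 e.2).sum_eq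
  rw [this, List.map_cons, List.sum_cons]

theorem m_ins : stIns := by
  intro X _ S T d E R hE hTS hR a b ha hab
  have key : ∀ x y, R x y → EqvGen (fun x y => (x, y) ∈ E) a x →
      JoinedIn {z | z ∈ T ∧ Ins S d E a z} x y := by
    intro x y hxy hax
    obtain ⟨hm, p, hp⟩ := hR x y hxy
    refine ⟨p, ?_⟩
    intro t
    refine ⟨(hp t).1, (x, p t) :: (p t, y) :: E.erase (x, y), ?_, ?_, ?_, ?_⟩
    · intro e he
      rcases List.mem_cons.1 he with rfl | he
      · exact ⟨(hE _ hm).1, hTS (hp t).1⟩
      · rcases List.mem_cons.1 he with rfl | he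
        · exact ⟨hTS (hp t).1, (hE _ hm).2⟩
        · exact hE e (List.mem_of_mem_erase he)
    · have h1 := nlen_erase_ins d hm
      have h2 := (hp t).2
      have h3 : nlen d ((x, p t) :: (p t, y) :: E.erase (x, y)) =
          d x (p t) + (d (p t) y + nlen d (E.erase (x, y))) := by
        unfold nlen
        rw [List.map_cons, List.map_cons, List.sum_cons, List.sum_cons]
      rw [h3, h1]
      linarith
    · intro u v huv
      refine mono_ins ?_ huv
      intro u v h
      by_cases he : (u, v) = (x, y)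
      · obtain ⟨rfl, rfl⟩ := Prod.mk.inj he
        exact (EqvGen.rel _ (p t) (by simp)).trans _ _ _ (EqvGen.rel _ _ (by simp))
      · exact EqvGen.rel _ _ (List.mem_cons_of_mem _ (List.mem_cons_of_mem _
          ((List.mem_erase_of_ne he).2 h)))
    · refine EqvGen.trans _ x _ ?_ (EqvGen.rel _ _ (by simp))
      refine mono_ins ?_ hax
      intro u v h
      by_cases he : (u, v) = (x, y)
      · obtain ⟨rfl, rfl⟩ := Prod.mk.inj he
        exact (EqvGen.rel _ (p t) (by simp)).trans _ _ _ (EqvGen.rel _ _ (by simp))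
      · exact EqvGen.rel _ _ (List.mem_cons_of_mem _ (List.mem_cons_of_mem _
          ((List.mem_erase_of_ne he).2 h)))
  have hcl := closed_ins (D := fun x => JoinedIn {z | z ∈ T ∧ Ins S d E a z} a x ∧
    EqvGen (fun x y => (x, y) ∈ E) a x) (fun x y h => by
      constructor
      · rintro ⟨h1, h2⟩
        exact ⟨h1.trans (key x y h h2), h2.trans _ _ _ (EqvGen.rel _ _ (hR x y h).1)⟩
      · rintro ⟨h1, h2⟩
        have h3 : EqvGen (fun x y => (x, y) ∈ E) a x :=
          h2.trans _ _ _ ((EqvGen.rel _ _ (hR x y h).1).symm)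
        exact ⟨h1.trans (key x y h h3).symm, h3⟩) hab
  refine (hcl.1 ⟨JoinedIn.refl ⟨ha, E, hE, le_refl _, fun _ _ h => h, EqvGen.refl _⟩,
    EqvGen.refl _⟩).1

end Pool.Agent.Helper93.GP
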