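import Pool.Agent.Helper93.GP.St

/-!
# Gilbert-Pollak, chapter TOP, module MEET
-/

namespace Pool.Agent.Helper93.GP

open Relation Classical Pool.Agent.Helper18.GP

open scoped unitInterval

private theorem mono_meet {X : Type*} {r s : X → X → Prop}
    (h : ∀ x y, r x y → EqvGen s x y) {x y : X} (hxy : EqvGen r x y) : EqvGen s x y := by
  induction hxy with
  | rel x y h' => exact h x y h'
  | refl x => exact EqvGen.refl _
  | symm x y _ ih => exact ih.symm
  | trans x y z _ _ ih1 ih2 => exact ih1.trans _ _ _ ih2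

private theorem nlen_erase_meet {X : Type*} (d : X → X → ℝ) {E : List (X × X)} {e : X × X}
    (he : e ∈ E) : nlen d E = d e.1 e.2 + nlen d (E.erase e) := by
  unfold nlen
  have := ((List.perm_cons_erase he).map fun e => d e.1 e.2).sum_eq
  rw [this, List.map_cons, List.sum_cons]

private theorem bridge_meet (hB : stBridge) {X : Type} (S : Set X) (d : X → X → ℝ) (hd : PM S d)
    (E : List (X × X)) (hE : ∀ e ∈ E, e.1 ∈ S ∧ e.2 ∈ S) (w z : X) (hw : w ∈ S) (hz : z ∈ S)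
    (h : EqvGen (fun x y => (x, y) ∈ E) w z) (h0 : 0 < d w z) :
    ∃ L : List (X × X), (∀ e ∈ L, e ∈ E) ∧ nlen d L < nlen d E ∧
      ∀ s, EqvGen (fun x y => (x, y) ∈ E) w s →
        EqvGen (fun x y => (x, y) ∈ L) s w ∨ EqvGen (fun x y => (x, y) ∈ L) s z := by
  obtain ⟨e, he, hepos, hbr⟩ := hB S d hd E hE w z hw hz h h0
  refine ⟨E.erase e, fun f hf => List.mem_of_mem_erase hf, ?_, hbr⟩
  have := nlen_erase_meet d he
  linarith

private theorem nlen_append_meet {X : Type*} (d : X → X → ℝ) (E E' : List (X × X)) :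
    nlen d (E ++ E') = nlen d E + nlen d E' := by
  unfold nlen
  rw [List.map_append, List.sum_append]

private theorem crs_meet {N : ℕ} {w a b' b : Fin N} (h0 : 0 < cyc w a) (h1 : cyc w a < cyc w b')
    (h2 : cyc w b' < cyc w b) : Crs a b b' w := by
  left
  have haw : a ≠ w := cyc_pos.1 h0
  have e1 : cyc a b' = cyc w b' - cyc w a := cyc_change_le h1.le
  have e2 : cyc a b = cyc w b - cyc w a := cyc_change_le (h1.trans h2).le
  have e3 : cyc a w = N - cyc w a := cyc_back haw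
  have e4 := cyc_lt w b
  refine ⟨⟨?_, ?_⟩, ?_, ?_⟩ <;> omega

theorem m_meet : stMeet := by
  intro hG hB hI N V G P hT hM hP w hw a ha b' hb' b hb h0 h1 h2 E₁ E₂ hE₁ hE₂ hC c1 c2 c3
  have hPM : PM (Pts V G) (dK V G P) := ⟨hM.nonneg, hM.symm, hM.self, hM.tri⟩
  have hW : dl w ∈ Pts V G := dl_mem G hw
  have haw : (dl a : Fin N → ℝ) ≠ dl w := fun h => cyc_pos.1 h0 (dl_inj h)
  -- a geodesic between two points
  have geo : ∀ x ∈ Pts V G, ∀ y ∈ Pts V G, ∃ p : Path x y, ∀ t, p t ∈ Pts V G ∧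
      dK V G P x y = dK V G P x (p t) + dK V G P (p t) y := by
    intro x hx y hy
    obtain ⟨p, hp⟩ := hG N V G P hM x hx y hy
    refine ⟨p, fun t => ⟨hp.mem t, ?_⟩⟩
    have := hp.fst t 1 (unitInterval.le_one t)
    rwa [p.target] at this
  -- first network
  have j1 : JoinedIn {z | z ∈ Pts V G \ {dl w} ∧ Ins (Pts V G) (dK V G P) E₁ (dl a) z}
      (dl a) (dl b) := by
    refine hI (Pts V G) (Pts V G \ {dl w}) (dK V G P) E₁
      (fun x y => (x, y) ∈ E₁ ∧ x ≠ dl w ∧ y ≠ dl w) hE₁ Set.sdiff_subset ?_ (dl a) (dl b)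
      ⟨dl_mem G ha, haw⟩ c2
    rintro x y ⟨hxy, hx, hy⟩
    obtain ⟨p, hp⟩ := geo x (hE₁ _ hxy).1 y (hE₁ _ hxy).2
    refine ⟨hxy, p, fun t => ⟨⟨(hp t).1, ?_⟩, (hp t).2⟩⟩
    intro ht
    have ht' : p t = dl w := ht
    have := (hp t).2
    rw [ht'] at this
    exact hC (x, y) hxy hx hy this
  -- second network
  have j2 : JoinedIn {z | z ∈ Pts V G ∧ Ins (Pts V G) (dK V G P) E₂ (dl b') z}
      (dl b') (dl w) := by
    refine hI (Pts V G) (Pts V G) (dK V G P) E₂
      (fun x y => (x, y) ∈ E₂) hE₂ subset_rfl ?_ (dl b') (dl w) (dl_mem G hb') c3.symm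
    intro x y hxy
    exact ⟨hxy, geo x (hE₂ _ hxy).1 y (hE₂ _ hxy).2⟩
  obtain ⟨z, ⟨⟨hzS, hzw⟩, E₁', n1, l1, k1, a1⟩, ⟨-, E₂', n2, l2, k2, a2⟩⟩ :=
    Pool.Agent.Helper77.GP.joined_cross hT.nc (fun z hz => hz.1.1) (fun z hz => hz.1)
      (crs_meet h0 h1 h2) j1 j2
  have hzw' : dl w ≠ z := fun h => hzw h.symm
  have hpos : 0 < dK V G P (dl w) z := by
    rcases (hM.nonneg _ hW _ hzS).lt_or_eq with h | h
    · exact h
    · exact absurd (hP _ hW _ hzS h.symm) hzw'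
  have wz : EqvGen (fun x y => (x, y) ∈ E₂') (dl w) z := (k2 _ _ c3).trans _ _ _ a2
  obtain ⟨L, hL, hLlen, hbr⟩ :=
    bridge_meet hB (Pts V G) (dK V G P) hPM E₂' n2 (dl w) z hW hzS wz hpos
  refine ⟨E₁' ++ L, ?_, ?_, ?_⟩
  · intro f hf
    rcases List.mem_append.1 hf with hf | hf
    · exact n1 f hf
    · exact n2 f (hL f hf)
  · rw [nlen_append_meet]
    linarith
  · have m1 : ∀ x y, EqvGen (fun x y => (x, y) ∈ E₁') x y →
        EqvGen (fun x y => (x, y) ∈ E₁' ++ L) x y := fun x y h =>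
      mono_meet (fun u v huv => EqvGen.rel _ _ (List.mem_append_left _ huv)) h
    have m2 : ∀ x y, EqvGen (fun x y => (x, y) ∈ L) x y →
        EqvGen (fun x y => (x, y) ∈ E₁' ++ L) x y := fun x y h =>
      mono_meet (fun u v huv => EqvGen.rel _ _ (List.mem_append_right _ huv)) h
    have wz' : EqvGen (fun x y => (x, y) ∈ E₁' ++ L) (dl w) z :=
      m1 _ _ ((k1 _ _ c1).trans _ _ _ a1)
    intro s hs
    rcases hs with hs | hs
    · exact m1 _ _ (k1 _ _ hs)
    · rcases hbr s (k2 _ _ hs) with h | h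
      · exact (m2 _ _ h).symm
      · exact wz'.trans _ _ _ (m2 _ _ h).symm

end Pool.Agent.Helper93.GP
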