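import Pool.Agent.Helper93.GP.St

/-!
# Gilbert-Pollak, chapter TOP, module NS: final induction
-/

set_option autoImplicit false

namespace Pool.Agent.Helper93.GP

open Relation Classical Pool.Agent.Helper18.GP

namespace NS

variable {N : ℕ}

/-- a network joining `w` to all points of `B` bounds the Steiner length of `B` -/
theorem ln_le {V : Finset (Fin N)} {G : SimpleGraph (Fin N)} {P : Fin N → ℂ}
    (hM : MetP V G P) {E : List ((Fin N → ℝ) × (Fin N → ℝ))}
    (hE : ∀ e ∈ E, e.1 ∈ Pts V G ∧ e.2 ∈ Pts V G) (w : Fin N) (B : Finset (Fin N))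
    (hB : ∀ b ∈ B, EqvGen (fun x y => (x, y) ∈ E) (dl w) (dl b)) :
    Ln V G P B ≤ nlen (dK V G P) E := by
  unfold Ln StL
  apply csInf_le
  · refine ⟨0, ?_⟩
    rintro c ⟨E', hE', -, rfl⟩
    unfold nlen
    apply List.sum_nonneg
    intro x hx
    obtain ⟨e, he, rfl⟩ := List.mem_map.1 hx
    exact hM.nonneg _ (hE' e he).1 _ (hE' e he).2
  · refine ⟨E, hE, ?_, rfl⟩
    rintro a ⟨a', ha', rfl⟩ b ⟨b', hb', rfl⟩
    exact EqvGen.trans _ _ _ (EqvGen.symm _ _ (hB a' ha')) (hB b' hb')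

theorem nlen_append {X : Type*} (d : X → X → ℝ) (E E' : List (X × X)) :
    nlen d (E ++ E') = nlen d E + nlen d E' := by
  unfold nlen
  rw [List.map_append, List.sum_append]

theorem claim (hMeet : stMeet0) (hSplit : stSplit) {V : Finset (Fin N)}
    {G : SimpleGraph (Fin N)} {P : Fin N → ℂ} (hT : IsTri V G) (hM : MetP V G P)
    (hP : ∀ x ∈ Pts V G, ∀ y ∈ Pts V G, dK V G P x y = 0 → x = y) {A : Finset (Fin N)}
    (hA : A ⊆ V) (hNS : NSsep V G P A) {w : Fin N} (hw : w ∈ V) {a : Fin N}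
    (ha : a ∈ A.erase w) (hmin : ∀ b ∈ A.erase w, cyc w a ≤ cyc w b) (n : ℕ) :
    ∀ (B₁ B₂ : Finset (Fin N)) (E₁ E₂ : List ((Fin N → ℝ) × (Fin N → ℝ))), B₁.card = n →
      a ∈ B₁ → B₂.Nonempty → Disjoint B₁ B₂ → B₁ ∪ B₂ = A.erase w →
      (∀ e ∈ E₁, e.1 ∈ Pts V G ∧ e.2 ∈ Pts V G) → (∀ e ∈ E₂, e.1 ∈ Pts V G ∧ e.2 ∈ Pts V G) →
      Clean (dK V G P) E₁ (dl w) →
      (∀ b ∈ B₁, EqvGen (fun x y => (x, y) ∈ E₁) (dl w) (dl b)) →
      (∀ b ∈ B₂, EqvGen (fun x y => (x, y) ∈ E₂) (dl w) (dl b)) →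
      nlen (dK V G P) E₁ + nlen (dK V G P) E₂ ≤ Ln V G P A → False := by
  induction n using Nat.strong_induction_on with
  | _ n ih =>
    intro B₁ B₂ E₁ E₂ hn haB hB₂ hdis hun hE₁ hE₂ hcl h1 h2 hlen
    have hsub : ∀ v ∈ A.erase w, v ∈ V := fun v hv => hA (Finset.mem_of_mem_erase hv)
    have hB₁A : ∀ v ∈ B₁, v ∈ A.erase w := fun v hv => hun ▸ Finset.mem_union_left _ hv
    have hB₂A : ∀ v ∈ B₂, v ∈ A.erase w := fun v hv => hun ▸ Finset.mem_union_right _ hv
    by_cases hsep : ∀ b ∈ B₁, ∀ c ∈ B₂, cyc w b < cyc w c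
    · have hlt := hNS w hw B₁ B₂ ⟨a, haB⟩ hB₂ hdis hun hsep
      have hl1 : Ln V G P (insert w B₁) ≤ nlen (dK V G P) E₁ := by
        apply ln_le hM hE₁ w
        intro b hb
        rcases Finset.mem_insert.1 hb with rfl | hb
        · exact EqvGen.refl _
        · exact h1 b hb
      have hl2 : Ln V G P (insert w B₂) ≤ nlen (dK V G P) E₂ := by
        apply ln_le hM hE₂ w
        intro b hb
        rcases Finset.mem_insert.1 hb with rfl | hb
        · exact EqvGen.refl _
        · exact h2 b hb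
      linarith
    · push Not at hsep
      obtain ⟨b, hb, b', hb', hle⟩ := hsep
      have hne : b' ≠ b := by
        rintro rfl
        exact (Finset.disjoint_left.1 hdis) hb hb'
      have hbb : cyc w b' < cyc w b := by
        rcases hle.lt_or_eq with h | h
        · exact h
        · exact absurd (cyc_inj h) hne
      have haw : a ≠ w := Finset.ne_of_mem_erase ha
      have h0 : 0 < cyc w a := cyc_pos.2 haw
      have hab : cyc w a < cyc w b' := by
        rcases (hmin b' (hB₂A b' hb')).lt_or_eq with h | h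
        · exact h
        · have h3 := cyc_inj h
          subst h3
          exact absurd hb' ((Finset.disjoint_left.1 hdis) haB)
      by_cases hj : EqvGen (fun x y => (x, y) ∈ E₁ ∧ x ≠ dl w ∧ y ≠ dl w) (dl a) (dl b)
      · obtain ⟨E, hE, hEl, hEc⟩ := hMeet N V G P hT hM hP w hw a (hsub a ha) b'
          (hsub b' (hB₂A b' hb')) b (hsub b (hB₁A b hb)) h0 hab hbb E₁ E₂ hE₁ hE₂ hcl
          (h1 a haB) hj (h2 b' hb')
        have hl : Ln V G P A ≤ nlen (dK V G P) E := by
          apply ln_le hM hE w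
          intro c hc
          by_cases hcw : c = w
          · rw [hcw]; exact EqvGen.refl _
          · have hc' : c ∈ B₁ ∪ B₂ := by
              rw [hun]; exact Finset.mem_erase.2 ⟨hcw, hc⟩
            rcases Finset.mem_union.1 hc' with hc1 | hc2
            · exact hEc _ (Or.inl (h1 c hc1))
            · exact hEc _ (Or.inr (h2 c hc2))
        linarith
      · have hdl : (dl a : Fin N → ℝ) ≠ dl w := fun h => haw (dl_inj h)
        obtain ⟨E₁₁, E₁₂, hs1, hs2, hsl, hs3, hs4⟩ := hSplit E₁ (dl a) (dl w) hdl (h1 a haB)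
        set C := B₁.filter fun v =>
          EqvGen (fun x y => (x, y) ∈ E₁ ∧ x ≠ dl w ∧ y ≠ dl w) (dl a) (dl v) with hC
        have hCB : C ⊆ B₁ := Finset.filter_subset _ _
        have hbC : b ∉ C := fun h => hj (Finset.mem_filter.1 h).2
        have haC : a ∈ C := Finset.mem_filter.2 ⟨haB, EqvGen.refl _⟩
        have hcard : C.card < n := by
          rw [← hn]
          exact Finset.card_lt_card (Finset.ssubset_iff_of_subset hCB |>.2 ⟨b, hb, hbC⟩)
        apply ih C.card hcard C (B₂ ∪ (B₁ \ C)) E₁₁ (E₂ ++ E₁₂) rfl haC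
        · exact hB₂.mono Finset.subset_union_left
        · rw [Finset.disjoint_union_right]
          exact ⟨Finset.disjoint_of_subset_left hCB hdis, Finset.disjoint_sdiff⟩
        · rw [← hun]
          ext v
          simp only [Finset.mem_union, Finset.mem_sdiff]
          constructor
          · rintro (h | h | h)
            · exact Or.inl (hCB h)
            · exact Or.inr h
            · exact Or.inl h.1
          · rintro (h | h)
            · by_cases hv : v ∈ C
              · exact Or.inl hv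
              · exact Or.inr (Or.inr ⟨h, hv⟩)
            · exact Or.inr (Or.inl h)
        · exact fun e he => hE₁ e (hs1 e he)
        · intro e he
          rcases List.mem_append.1 he with h | h
          · exact hE₂ e h
          · exact hE₁ e (hs2 e h)
        · exact fun e he => hcl e (hs1 e he)
        · intro v hv
          exact hs3 _ (Finset.mem_filter.1 hv).2
        · intro v hv
          rcases Finset.mem_union.1 hv with h | h
          · exact (h2 v h).mono fun x y hxy => List.mem_append_left _ hxy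
          · obtain ⟨hvB, hvC⟩ := Finset.mem_sdiff.1 h
            have hnj : ¬ EqvGen (fun x y => (x, y) ∈ E₁ ∧ x ≠ dl w ∧ y ≠ dl w) (dl a) (dl v) :=
              fun h' => hvC (Finset.mem_filter.2 ⟨hvB, h'⟩)
            exact (hs4 _ hnj (h1 v hvB)).mono fun x y hxy => List.mem_append_right _ hxy
        · rw [nlen_append]
          have := hsl (dK V G P)
          linarith

theorem cut (hMeet : stMeet0) (hSplit : stSplit) (hClean : stClean) {V : Finset (Fin N)}
    {G : SimpleGraph (Fin N)} {P : Fin N → ℂ} (hT : IsTri V G) (hM : MetP V G P)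
    (hL : LnP V G P) (hP : ∀ x ∈ Pts V G, ∀ y ∈ Pts V G, dK V G P x y = 0 → x = y)
    {A : Finset (Fin N)} (hA : A ⊆ V) (hNS : NSsep V G P A) {w : Fin N} (hw : w ∈ V)
    {a : Fin N} (ha : a ∈ A.erase w) (hmin : ∀ b ∈ A.erase w, cyc w a ≤ cyc w b)
    (B₁ B₂ : Finset (Fin N)) (haB : a ∈ B₁) (hB₂ : B₂.Nonempty) (hdis : Disjoint B₁ B₂)
    (hun : B₁ ∪ B₂ = A.erase w)
    (hle : Ln V G P (insert w B₁) + Ln V G P (insert w B₂) ≤ Ln V G P A) : False := by
  have hsub : ∀ v ∈ A.erase w, v ∈ V := fun v hv => hA (Finset.mem_of_mem_erase hv)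
  have hV1 : insert w B₁ ⊆ V := by
    intro v hv
    rcases Finset.mem_insert.1 hv with rfl | hv
    · exact hw
    · exact hsub v (hun ▸ Finset.mem_union_left _ hv)
  have hV2 : insert w B₂ ⊆ V := by
    intro v hv
    rcases Finset.mem_insert.1 hv with rfl | hv
    · exact hw
    · exact hsub v (hun ▸ Finset.mem_union_right _ hv)
  obtain ⟨F₁, hF₁, hc₁, hl₁⟩ := hL.att _ hV1
  obtain ⟨E₂, hE₂, hc₂, hl₂⟩ := hL.att _ hV2
  obtain ⟨E₁, hE₁, hlE, hcE, hcl⟩ := hClean (Pts V G) (dK V G P) F₁ (dl w) (dl_mem G hw) hF₁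
  have hwm1 : (dl w : Fin N → ℝ) ∈ dl '' ((insert w B₁ : Finset (Fin N)) : Set (Fin N)) :=
    ⟨w, Finset.mem_coe.2 (Finset.mem_insert_self w B₁), rfl⟩
  have hwm2 : (dl w : Fin N → ℝ) ∈ dl '' ((insert w B₂ : Finset (Fin N)) : Set (Fin N)) :=
    ⟨w, Finset.mem_coe.2 (Finset.mem_insert_self w B₂), rfl⟩
  refine claim hMeet hSplit hT hM hP hA hNS hw ha hmin B₁.card B₁ B₂ E₁ E₂ rfl haB hB₂ hdis hun
    hE₁ hE₂ hcl ?_ ?_ ?_
  · intro b hb
    exact hcE _ _ (hc₁ _ hwm1 _ ⟨b, Finset.mem_coe.2 (Finset.mem_insert_of_mem hb), rfl⟩)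
  · intro b hb
    exact hc₂ _ hwm2 _ ⟨b, Finset.mem_coe.2 (Finset.mem_insert_of_mem hb), rfl⟩
  · rw [hlE, ← hl₁, ← hl₂]
    exact hle

end NS

theorem m_ns : stNS' := by
  intro hMeet hSplit hClean N V G P hT hM hL hP A hA hNS w hw B₁ B₂ h1 h2 hdis hun
  by_contra hcon
  rw [not_lt] at hcon
  have hne : (A.erase w).Nonempty := by
    obtain ⟨b, hb⟩ := h1
    exact ⟨b, hun ▸ Finset.mem_union_left _ hb⟩
  obtain ⟨a, ha, hmin⟩ := Finset.exists_min_image (A.erase w) (fun b => cyc w b) hne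
  have ha' : a ∈ B₁ ∪ B₂ := hun ▸ ha
  rcases Finset.mem_union.1 ha' with h | h
  · exact NS.cut hMeet hSplit hClean hT hM hL hP hA hNS hw ha hmin B₁ B₂ h h2 hdis hun hcon
  · exact NS.cut hMeet hSplit hClean hT hM hL hP hA hNS hw ha hmin B₂ B₁ h h1 hdis.symm
      (by rw [Finset.union_comm]; exact hun) (by linarith)

end Pool.Agent.Helper93.GP
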