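import Pool.Agent.Helper93.GP.St

/-!
# Gilbert-Pollak, chapter TOP, module SPLIT
-/

namespace Pool.Agent.Helper93.GP

open Relation Classical Pool.Agent.Helper18.GP

/-- a set closed under the generating pairs is closed under the equivalence -/
private theorem closed_split {X : Type} {r : X → X → Prop} {D : X → Prop}
    (h : ∀ x y, r x y → (D x ↔ D y)) {x y : X} (hxy : EqvGen r x y) : D x ↔ D y := by
  induction hxy with
  | rel x y h' => exact h x y h'
  | refl x => exact Iff.rfl
  | symm x y _ ih => exact ih.symm
  | trans x y z _ _ ih1 ih2 => exact ih1.trans ih2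

private theorem nlen_filter_split {X : Type} (d : X → X → ℝ) (p : X × X → Prop)
    (i₁ : DecidablePred p) (i₂ : DecidablePred fun e => ¬ p e) (E : List (X × X)) :
    nlen d (E.filter fun e => decide (p e)) + nlen d (E.filter fun e => decide (¬ p e))
      = nlen d E := by
  induction E with
  | nil => simp [nlen]
  | cons e E ih =>
    unfold nlen at ih ⊢
    by_cases hp : p e
    · rw [List.filter_cons_of_pos (by simpa using hp), List.filter_cons_of_neg (by simpa using hp)]
      rw [List.map_cons, List.map_cons, List.sum_cons, List.sum_cons, ← ih]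
      ring
    · rw [List.filter_cons_of_neg (by simpa using hp), List.filter_cons_of_pos (by simpa using hp)]
      rw [List.map_cons, List.map_cons, List.sum_cons, List.sum_cons, ← ih]
      ring

theorem m_split : stSplit := by
  intro X E a w haw hwa
  set R : X → X → Prop := fun x y => (x, y) ∈ E ∧ x ≠ w ∧ y ≠ w with hR
  set p : X × X → Prop := fun e => EqvGen R a e.1 ∨ EqvGen R a e.2 with hp
  have hw : ¬ EqvGen R a w := by
    intro h
    have := closed_split (D := fun x => x ≠ w) (fun x y h => by
      constructor
      · intro _; exact h.2.2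
      · intro _; exact h.2.1) h
    exact (this.1 haw) rfl
  refine ⟨E.filter fun e => decide (p e), E.filter fun e => decide (¬ p e), ?_, ?_, ?_, ?_, ?_⟩
  · intro e he; exact (List.mem_filter.1 he).1
  · intro e he; exact (List.mem_filter.1 he).1
  · intro d
    exact nlen_filter_split d p _ _ E
  all_goals
    have m1 : ∀ {x y : X}, (x, y) ∈ E → (EqvGen R a x ∨ EqvGen R a y) →
        (x, y) ∈ E.filter fun e => decide (p e) := by
      intro x y h1 h2
      exact List.mem_filter.2 ⟨h1, by simpa [hp] using h2⟩
    have m2 : ∀ {x y : X}, (x, y) ∈ E → ¬ EqvGen R a x → ¬ EqvGen R a y →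
        (x, y) ∈ E.filter fun e => decide (¬ p e) := by
      intro x y h1 h2 h3
      exact List.mem_filter.2 ⟨h1, by simpa [hp] using ⟨h2, h3⟩⟩
    have c1 : ∀ x, EqvGen R a x → EqvGen (fun x y => (x, y) ∈ E.filter fun e => decide (p e)) a x := by
      intro x hx
      have := closed_split (D := fun x => EqvGen R a x ∧
        EqvGen (fun x y => (x, y) ∈ E.filter fun e => decide (p e)) a x) (fun x y h => by
          constructor
          · rintro ⟨h1, h2⟩
            exact ⟨h1.trans _ _ _ (EqvGen.rel _ _ h),
              h2.trans _ _ _ (EqvGen.rel _ _ (m1 h.1 (Or.inl h1)))⟩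
          · rintro ⟨h1, h2⟩
            exact ⟨h1.trans _ _ _ ((EqvGen.rel _ _ h).symm),
              h2.trans _ _ _ ((EqvGen.rel _ _ (m1 h.1 (Or.inr h1))).symm)⟩) hx
      exact (this.1 ⟨EqvGen.refl _, EqvGen.refl _⟩).2
  · intro x hx
    have c2 : EqvGen (fun x y => (x, y) ∈ E.filter fun e => decide (p e)) a w := by
      by_contra hne
      apply hw
      refine (closed_split (D := fun x => EqvGen R a x) ?_ hwa).2 (EqvGen.refl _)
      intro x y h
      constructor
      · intro h1
        have hx : x ≠ w := by rintro rfl; exact hw h1
        have hy : y ≠ w := by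
          rintro rfl
          exact hne ((c1 x h1).trans _ _ _ (EqvGen.rel _ _ (m1 h (Or.inl h1))))
        exact h1.trans _ _ _ (EqvGen.rel _ _ ⟨h, hx, hy⟩)
      · intro h1
        have hy : y ≠ w := by rintro rfl; exact hw h1
        have hx : x ≠ w := by
          rintro rfl
          exact hne ((c1 y h1).trans _ _ _ ((EqvGen.rel _ _ (m1 h (Or.inr h1))).symm))
        exact h1.trans _ _ _ ((EqvGen.rel _ _ ⟨h, hx, hy⟩).symm)
    exact c2.symm.trans _ _ _ (c1 x hx)
  · intro x hx hwx
    have := closed_split (D := fun x => EqvGen R a x ∨
      EqvGen (fun x y => (x, y) ∈ E.filter fun e => decide (¬ p e)) w x) (fun x y h => by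
        constructor
        · intro h1
          by_cases hy : EqvGen R a y
          · exact Or.inl hy
          · rcases h1 with h1 | h1
            · have hx : x ≠ w := by rintro rfl; exact hw h1
              by_cases hyw : y = w
              · subst hyw; exact Or.inr (EqvGen.refl _)
              · exact absurd (h1.trans _ _ _ (EqvGen.rel _ _ ⟨h, hx, hyw⟩)) hy
            · by_cases hx : EqvGen R a x
              · have hxw : x ≠ w := by rintro rfl; exact hw hx
                by_cases hyw : y = w
                · subst hyw; exact Or.inr (EqvGen.refl _)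
                · exact absurd (hx.trans _ _ _ (EqvGen.rel _ _ ⟨h, hxw, hyw⟩)) hy
              · exact Or.inr (h1.trans _ _ _ (EqvGen.rel _ _ (m2 h hx hy)))
        · intro h1
          by_cases hx : EqvGen R a x
          · exact Or.inl hx
          · rcases h1 with h1 | h1
            · have hy : y ≠ w := by rintro rfl; exact hw h1
              by_cases hxw : x = w
              · subst hxw; exact Or.inr (EqvGen.refl _)
              · exact absurd (h1.trans _ _ _ ((EqvGen.rel _ _ ⟨h, hxw, hy⟩).symm)) hx
            · by_cases hy : EqvGen R a y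
              · have hyw : y ≠ w := by rintro rfl; exact hw hy
                by_cases hxw : x = w
                · subst hxw; exact Or.inr (EqvGen.refl _)
                · exact absurd (hy.trans _ _ _ ((EqvGen.rel _ _ ⟨h, hxw, hyw⟩).symm)) hx
              · exact Or.inr (h1.trans _ _ _ ((EqvGen.rel _ _ (m2 h hx hy)).symm))) hwx
    rcases this.1 (Or.inr (EqvGen.refl _)) with h | h
    · exact absurd h hx
    · exact h

end Pool.Agent.Helper93.GP
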