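import Pool.Agent.Helper18.GP.NSmin2
import Pool.Agent.Helper93.GP.M_BRIDGE
import Pool.Agent.Helper93.GP.M_CHP
import Pool.Agent.Helper93.GP.M_CLEAN
import Pool.Agent.Helper93.GP.M_INS
import Pool.Agent.Helper93.GP.M_MEET
import Pool.Agent.Helper93.GP.M_NS
import Pool.Agent.Helper93.GP.M_SPLIT

/-!
# Gilbert-Pollak, chapter TOP: planarity (assembly)
-/

namespace Pool.Agent.Helper93.GP

open Relation Classical Pool.Agent.Helper18.GP

/-- planarity: if no cut respecting the cyclic order exists then no cut exists -/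
theorem topNS (hM : stMet) (hP : stPos) (hA : stApex) (hL : stLnP) : stNS := by
  intro N V G P hT hS h3c A hAV hsep
  exact m_ns (m_meet (m_geo m_chp) m_bridge m_ins) m_split m_clean N V G P hT (hM N V G P hT)
    (hL N V G P hT) (hP N V G P hT hS (St_ne hA hT hS h3c)) A hAV hsep

end Pool.Agent.Helper93.GP
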