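import Pool.Agent.Helper18.GP.Min1
import Pool.Agent.Helper49.GP.Base

/-!
# Gilbert-Pollak, chapter MET: gluing along an edge
-/

namespace Pool.Agent.Helper93.GP

open Relation Classical Pool.Agent.Helper18.GP

variable {N : ℕ} {V : Finset (Fin N)} {G : SimpleGraph (Fin N)} {P : Fin N → ℂ}

theorem Pts_sub {V' : Finset (Fin N)} (h : V' ⊆ V) {x : Fin N → ℝ} (hx : x ∈ Pts V' G) :
    x ∈ Pts V G := ⟨hx.1, hx.2.1, fun v hv => h (hx.2.2.1 v hv), hx.2.2.2⟩

theorem Pts_of {V' : Finset (Fin N)} {x : Fin N → ℝ} (hx : x ∈ Pts V G)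
    (h : ∀ v, x v ≠ 0 → v ∈ V') : x ∈ Pts V' G := ⟨hx.1, hx.2.1, h, hx.2.2.2⟩

theorem Ch_sub {V' : Finset (Fin N)} (h : V' ⊆ V) {x y : Fin N → ℝ} {c : ℝ}
    (hc : Ch V' G P x y c) : Ch V G P x y c := by
  induction hc with
  | nil x hx => exact Ch.nil x (Pts_sub h hx)
  | cons x y z c hx hs hch ih => exact Ch.cons x y z c (Pts_sub h hx) hs ih

theorem Ch_nonneg {x y : Fin N → ℝ} {c : ℝ} (hc : Ch V G P x y c) : 0 ≤ c := by
  induction hc with
  | nil x hx => exact le_refl _
  | cons x y z c hx hs hch ih => exact add_nonneg (norm_nonneg _) ih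

theorem dK_le {x y : Fin N → ℝ} {c : ℝ} (hc : Ch V G P x y c) : dK V G P x y ≤ c := by
  apply csInf_le
  · exact ⟨0, fun c' hc' => Ch_nonneg hc'⟩
  · exact hc

theorem Ch.mem_right {x y : Fin N → ℝ} {c : ℝ} (hc : Ch V G P x y c) : y ∈ Pts V G := by
  induction hc with
  | nil x hx => exact hx
  | cons x y z c hx hs hch ih => exact ih

/-- a face lies on one side of an edge -/
theorem side2 (hS : stSide) (hT : IsTri V G) {a b : Fin N} (ha : a ∈ V) (hb : b ∈ V)
    (hab : G.Adj a b) {x y : Fin N → ℝ} (hx : x ∈ Pts V G) (hy : y ∈ Pts V G) (hs : Sh G x y) :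
    (x ∈ Pts (Arc V a b) G ∧ y ∈ Pts (Arc V a b) G) ∨
      (x ∈ Pts (Arc V b a) G ∧ y ∈ Pts (Arc V b a) G) := by
  have key := hS N V G hT a ha b hb hab (V.filter fun v => x v ≠ 0 ∨ y v ≠ 0)
    (Finset.filter_subset _ _) (by
      intro u hu v hv huv
      rw [Finset.mem_filter] at hu hv
      exact hs u v hu.2 hv.2 huv)
  rcases key with h | h
  · left
    refine ⟨Pts_of hx fun v hv => h ?_, Pts_of hy fun v hv => h ?_⟩
    · rw [Finset.mem_filter]; exact ⟨hx.2.2.1 v hv, Or.inl hv⟩
    · rw [Finset.mem_filter]; exact ⟨hy.2.2.1 v hv, Or.inr hv⟩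
  · right
    refine ⟨Pts_of hx fun v hv => h ?_, Pts_of hy fun v hv => h ?_⟩
    · rw [Finset.mem_filter]; exact ⟨hx.2.2.1 v hv, Or.inl hv⟩
    · rw [Finset.mem_filter]; exact ⟨hy.2.2.1 v hv, Or.inr hv⟩

theorem seg_of_supp {a b : Fin N} (hab : a ≠ b) {x : Fin N → ℝ} (hx : x ∈ Pts V G)
    (h : ∀ v, x v ≠ 0 → v = a ∨ v = b) : ∃ t ∈ Set.Icc (0 : ℝ) 1, x = seg a b t := by
  have hsum : x a + x b = 1 := by
    rw [← hx.2.1]
    rw [← Finset.sum_subset (Finset.subset_univ ({a, b} : Finset (Fin N)))]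
    · rw [Finset.sum_pair hab]
    · intro v _ hv
      by_contra hne
      exact hv (by simpa using h v hne)
  have h0 := hx.1 a
  have h1 := hx.1 b
  refine ⟨x b, ⟨h1, by linarith⟩, ?_⟩
  funext v
  rw [Helper49.GP.seg_apply]
  by_cases hva : v = a
  · subst hva
    rw [if_pos rfl, if_neg hab]
    linarith
  · by_cases hvb : v = b
    · subst hvb
      rw [if_neg hva, if_pos rfl]
      ring
    · rw [if_neg hva, if_neg hvb]
      by_contra hne
      rcases h v (by intro h0; apply hne; rw [h0]; ring) with h' | h'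
      · exact hva h'
      · exact hvb h'

theorem glue_inter {a b : Fin N} (hab : a ≠ b) {x : Fin N → ℝ} (hx : x ∈ Pts (Arc V a b) G)
    (hx' : x ∈ Pts (Arc V b a) G) : ∃ t ∈ Set.Icc (0 : ℝ) 1, x = seg a b t :=
  seg_of_supp hab hx fun v hv => mem_Arc_both (Ne.symm hab) (hx.2.2.1 v hv) (hx'.2.2.1 v hv)

theorem Sh_seg {a b : Fin N} (hab : G.Adj a b) (s t : ℝ) : Sh G (seg a b s) (seg a b t) := by
  intro u v hu hv huv
  have hu' : u = a ∨ u = b := hu.elim Helper49.GP.seg_ne Helper49.GP.seg_ne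
  have hv' : v = a ∨ v = b := hv.elim Helper49.GP.seg_ne Helper49.GP.seg_ne
  rcases hu' with rfl | rfl <;> rcases hv' with rfl | rfl
  · exact absurd rfl huv
  · exact hab
  · exact hab.symm
  · exact absurd rfl huv

theorem metGlue (hM : stMet) (hS : stSide) (hA : stArcTri) : stGlue := by
  intro N V G P hT a ha b hb hab
  have hne : a ≠ b := hab.ne
  have M : MetP V G P := hM N V G P hT
  have M1 : MetP (Arc V a b) G P := hM N _ G P (hA N V G hT a ha b hb hab)
  have aA : a ∈ Arc V a b := left_mem_Arc ha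
  have bA : b ∈ Arc V a b := right_mem_Arc hb
  have segV : ∀ t ∈ Set.Icc (0 : ℝ) 1, seg a b t ∈ Pts V G := fun t ht =>
    Helper49.GP.seg_mem ha hb hab ht
  have segA : ∀ t ∈ Set.Icc (0 : ℝ) 1, seg a b t ∈ Pts (Arc V a b) G := fun t ht =>
    Helper49.GP.seg_mem aA bA hab ht
  have sub1 : ∀ {x : Fin N → ℝ}, x ∈ Pts (Arc V a b) G → x ∈ Pts V G :=
    fun h => Pts_sub (Arc_sub V a b) h
  have sub2 : ∀ {x : Fin N → ℝ}, x ∈ Pts (Arc V b a) G → x ∈ Pts V G :=
    fun h => Pts_sub (Arc_sub V b a) h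
  refine ⟨?_, ?_, ?_, ?_⟩
  · intro x hx
    rcases side2 hS hT ha hb hab hx hx (Helper49.GP.Sh_self hx) with h | h
    · exact Or.inl h.1
    · exact Or.inr h.1
  · intro x hx hx'
    exact glue_inter hne hx hx'
  · -- cross
    have key : ∀ x y c, Ch V G P x y c → x ∈ Pts (Arc V a b) G → y ∈ Pts (Arc V b a) G →
        ∃ t ∈ Set.Icc (0 : ℝ) 1, dK V G P x (seg a b t) + dK V G P (seg a b t) y ≤ c := by
      intro x y c hc
      induction hc with
      | nil x hx =>
        intro h1 h2
        obtain ⟨t, ht, rfl⟩ := glue_inter hne h1 h2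
        refine ⟨t, ht, ?_⟩
        rw [M.self _ hx]
        simp
      | cons x y z c hx hs hch ih =>
        intro h1 h2
        have hy := hch.mem_left
        rcases side2 hS hT ha hb hab hx hy hs with ⟨-, hy1⟩ | ⟨hx2, -⟩
        · obtain ⟨t, ht, h3⟩ := ih hy1 h2
          refine ⟨t, ht, ?_⟩
          have h4 := M.tri x hx y hy _ (segV t ht)
          rw [M.sh x hx y hy hs] at h4
          linarith
        · obtain ⟨t, ht, rfl⟩ := glue_inter hne h1 hx2
          refine ⟨t, ht, ?_⟩
          have h4 := M.tri _ hx y hy z (sub2 h2)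
          rw [M.sh _ hx y hy hs] at h4
          have h5 := dK_le hch
          rw [M.self _ hx]
          linarith
    intro x hx y hy
    obtain ⟨t, ht, h⟩ := key x y _ (M.att x (sub1 hx) y (sub2 hy)) hx hy
    exact ⟨t, ht, le_antisymm (M.tri x (sub1 hx) _ (segV t ht) y (sub2 hy)) h⟩
  · -- sub
    have key : ∀ x y c, Ch V G P x y c → y ∈ Pts (Arc V a b) G →
        (x ∈ Pts (Arc V a b) G → dK (Arc V a b) G P x y ≤ c) ∧
        (x ∈ Pts (Arc V b a) G → ∃ t ∈ Set.Icc (0 : ℝ) 1,
          ‖dev P x - dev P (seg a b t)‖ + dK (Arc V a b) G P (seg a b t) y ≤ c) := by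
      intro x y c hc
      induction hc with
      | nil x hx =>
        intro h1
        refine ⟨fun _ => (M1.self x h1).le, fun h2 => ?_⟩
        obtain ⟨t, ht, rfl⟩ := glue_inter hne h1 h2
        refine ⟨t, ht, ?_⟩
        rw [M1.self _ h1]
        simp
      | cons x y z c hx hs hch ih =>
        intro h1
        have hy := hch.mem_left
        obtain ⟨ihA, ihB⟩ := ih h1
        constructor
        · intro hxA
          rcases side2 hS hT ha hb hab hx hy hs with ⟨-, hy1⟩ | ⟨hx2, hy2⟩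
          · have h3 := ihA hy1
            have h4 := M1.tri x hxA y hy1 z h1
            rw [M1.sh x hxA y hy1 hs] at h4
            linarith
          · obtain ⟨s, hs', rfl⟩ := glue_inter hne hxA hx2
            obtain ⟨t, ht, h3⟩ := ihB hy2
            have h4 := M1.tri _ hxA _ (segA t ht) z h1
            rw [M1.sh _ hxA _ (segA t ht) (Sh_seg hab s t)] at h4
            have h5 : ‖dev P (seg a b s) - dev P (seg a b t)‖ ≤
                ‖dev P (seg a b s) - dev P y‖ + ‖dev P y - dev P (seg a b t)‖ := by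
              have := norm_add_le (dev P (seg a b s) - dev P y) (dev P y - dev P (seg a b t))
              rwa [sub_add_sub_cancel] at this
            linarith
        · intro hxB
          rcases side2 hS hT ha hb hab hx hy hs with ⟨hx1, hy1⟩ | ⟨-, hy2⟩
          · obtain ⟨s, hs', rfl⟩ := glue_inter hne hx1 hxB
            refine ⟨s, hs', ?_⟩
            have h3 := ihA hy1
            have h4 := M1.tri _ hx1 y hy1 z h1
            rw [M1.sh _ hx1 y hy1 hs] at h4
            rw [sub_self, norm_zero]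
            linarith
          · obtain ⟨t, ht, h3⟩ := ihB hy2
            refine ⟨t, ht, ?_⟩
            have h5 : ‖dev P x - dev P (seg a b t)‖ ≤
                ‖dev P x - dev P y‖ + ‖dev P y - dev P (seg a b t)‖ := by
              have := norm_add_le (dev P x - dev P y) (dev P y - dev P (seg a b t))
              rwa [sub_add_sub_cancel] at this
            linarith
    intro x hx y hy
    apply le_antisymm
    · exact (key x y _ (M.att x (sub1 hx) y (sub1 hy)) hy).1 hx
    · exact dK_le (Ch_sub (Arc_sub V a b) (M1.att x hx y hy))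

end Pool.Agent.Helper93.GP
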