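import Pool.Agent.Helper18.GP.Cyc
import Pool.Agent.Helper77.GP.CrossPts

/-!
# Gilbert-Pollak, chapter TOP: statements of the modules with written proofs

Pinch: CHP, GEO, KK, GAM, FOLL, HIT, CONTR, NETW, PINCH.
Planarity: BRIDGE, SPLIT, INS, CLEAN, MEET, NS.

The crossing lemma is `Pool.Agent.Helper77.GP.joined_cross`:
`(nc : non-interleaving) {S T} (hS : S ⊆ Pts V G) (hT : T ⊆ Pts V G) {a b c d} (h : Crs a c b d)
(h1 : JoinedIn S (dl a) (dl c)) (h2 : JoinedIn T (dl b) (dl d)) : (S ∩ T).Nonempty`.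
-/

namespace Pool.Agent.Helper93.GP

open Relation Classical Pool.Agent.Helper18.GP

open scoped unitInterval

/-! ## The pinch -/

/-- pseudometric on the set `S` -/
structure PM {X : Type*} (S : Set X) (d : X → X → ℝ) : Prop where
  nonneg : ∀ x ∈ S, ∀ y ∈ S, 0 ≤ d x y
  symm : ∀ x ∈ S, ∀ y ∈ S, d x y = d y x
  self : ∀ x ∈ S, d x x = 0
  tri : ∀ x ∈ S, ∀ y ∈ S, ∀ z ∈ S, d x z ≤ d x y + d y z

/-- geodesic path in `S` -/
structure Geod {X : Type*} [TopologicalSpace X] (S : Set X) (d : X → X → ℝ) {x y : X}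
    (p : Path x y) : Prop where
  mem : ∀ t, p t ∈ S
  cont : Continuous fun t => d x (p t)
  fst : ∀ s t, s ≤ t → d x (p t) = d x (p s) + d (p s) (p t)
  snd : ∀ s t, s ≤ t → d (p s) y = d (p s) (p t) + d (p t) y

/-- **CHP.** A chain gives a path together with a clock (itself a path in `ℝ`). Proof. Induction on
the chain. nil: constant paths. cons: first segment `t ↦ (1-t) x + t y` (in `Pts V G`, as
`Sh x y` and `x, y ∈ Pts V G`; `y ∈ Pts V G` by cases on the rest of the chain), clock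
`t ↦ t ‖dev P x - dev P y‖`; two points `p s`, `p t` of the segment satisfy `Sh` (supports in the
union of the supports of `x`, `y`), so `dK = ‖dev (p s) - dev (p t)‖ = |s-t| ‖dev x - dev y‖` by
`MetP.sh` and linearity of `dev`. Concatenate with the path from the induction hypothesis:
`Path.trans`, clock `Path.trans` of the first clock and of the second clock shifted by
`‖dev P x - dev P y‖`; for `s ≤ 1/2 < t` use the triangle inequality through the middle point. -/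
def stChp : Prop := ∀ (N : ℕ) (V : Finset (Fin N)) (G : SimpleGraph (Fin N)) (P : Fin N → ℂ),
  MetP V G P → ∀ x y c, Ch V G P x y c → ∃ (p : Path x y) (L : Path (0 : ℝ) c), Monotone L ∧
    (∀ t, p t ∈ Pts V G) ∧ ∀ s t, s ≤ t → dK V G P (p s) (p t) ≤ L t - L s

/-- **GEO.** (uses CHP) Geodesic paths. Proof. Take CHP for the chain of length
`c = dK x y` (`MetP.att`). For `s ≤ t`: `dK x (p s) ≤ L s`, `dK (p s) (p t) ≤ L t - L s`,
`dK (p t) y ≤ c - L t`, and `c = dK x y ≤ dK x (p s) + dK (p s) (p t) + dK (p t) y ≤ c`, so all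
these are equalities: `dK x (p s) = L s`, `dK (p s) (p t) = L t - L s`, `dK (p t) y = c - L t`.
Everything follows. -/
def stGeo : Prop := ∀ (N : ℕ) (V : Finset (Fin N)) (G : SimpleGraph (Fin N)) (P : Fin N → ℂ),
  MetP V G P → ∀ x ∈ Pts V G, ∀ y ∈ Pts V G, ∃ p : Path x y, Geod (Pts V G) (dK V G P) p

/-- **KK.** Proof. `JoinedIn (range p₂) (dl g) (dl c)` by `p₂`, and `joined_cross` (with
`nc = IsTri.nc`) applied to `range p₂` and `Pts V G \ range p₂` gives a point in both. K1: from `v'`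
to `v` against `p₂` from `g` to `c`, cyclic order `g, v', c, v`. K2: from `v` to `c` against `p₁` from
`a` to `g`, order `a, v, g, c`. K3: from `v'` to `a` against `p₂` from `g` to `c`, order `g, v', c, a`.
The `Crs` facts: unfold `Crs Ccw cyc`, `split_ifs`, `omega` (or the lemmas of `Cyc.lean`). -/
def stKK : Prop := ∀ (N : ℕ) (V : Finset (Fin N)) (G : SimpleGraph (Fin N)),
  IsTri V G → ∀ a ∈ V, ∀ g ∈ V, ∀ c ∈ V, Ccw a g c →
  ∀ (p₁ : Path (dl a) (dl g)) (p₂ : Path (dl g) (dl c)), (∀ t, p₁ t ∈ Pts V G) →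
    (∀ t, p₂ t ∈ Pts V G) →
    (∀ v ∈ V, Ccw a v g → ∀ v' ∈ V, Ccw g v' c →
      ¬ JoinedIn (Pts V G \ Set.range p₂) (dl v) (dl v')) ∧
    (∀ v ∈ V, Ccw a v g → ¬ JoinedIn (Pts V G \ Set.range p₁) (dl v) (dl c)) ∧
    (∀ v' ∈ V, Ccw g v' c → ¬ JoinedIn (Pts V G \ Set.range p₂) (dl v') (dl a))

/-- **GAM.** Points of two consecutive geodesics. Proof. `τ x = d a x`, `σ = d a g`, `ℓ = d a c`.
On `p₁`: `σ = τ x + d x g` (`fst` with `t = 1`). For `x = p₂ t`: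
`ℓ ≤ τ x + d x c ≤ (σ + d g x) + d x c = σ + d g c = ℓ`, so `τ x = σ + d g x` and
`τ x + d x c = ℓ`. For `x, y` on the same path: `fst`; for `x` on `p₁`, `y` on `p₂`:
`d x y ≤ d x g + d g y = (σ - τ x) + (τ y - σ)` and `ℓ ≤ τ x + d x y + d y c` with
`d y c = ℓ - τ y`. `γ`: intermediate values of `t ↦ τ (p₁ t)` (from `0` to `σ`) and of
`t ↦ τ (p₂ t) = σ + d g (p₂ t)` (from `σ` to `ℓ`), and choice. -/
def stGam : Prop := ∀ {X : Type} [TopologicalSpace X] (S : Set X) (d : X → X → ℝ), PM S d →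
  ∀ (a g c : X) (p₁ : Path a g) (p₂ : Path g c), Geod S d p₁ → Geod S d p₂ →
  d a c = d a g + d g c →
  (∀ x ∈ Set.range p₁, x ∈ S ∧ d a x ≤ d a g) ∧
  (∀ x ∈ Set.range p₂, x ∈ S ∧ d a g ≤ d a x ∧ d a x ≤ d a c) ∧
  (∀ x ∈ Set.range p₁ ∪ Set.range p₂, ∀ y ∈ Set.range p₁ ∪ Set.range p₂,
    d x y = |d a x - d a y|) ∧
  ∃ γ : ℝ → X, (∀ s, γ s ∈ Set.range p₁ ∪ Set.range p₂) ∧
    ∀ s, 0 ≤ s → s ≤ d a c → d a (γ s) = s

/-- **FOLL.** (uses GAM) Proof. First part: `x` is not on `p₁` (there `d a · ≤ d a g`), so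
`x = p₂ t₁`, and for `t ≥ t₁` one has `d g (p₂ t) ≥ d g (p₂ t₁)` (`fst`, `nonneg`), hence
`d a (p₂ t) ≥ d a x > d a g` (`d a y = d a g + d g y` on `p₂`: GAM for the pair `g`, `y`), so `p₂ t`
is not on `p₁`. The part of `p₂` after `t₁` joins `x` to `c`. Second part: the same with `p₁`
followed backwards. (Restriction of a path: `JoinedIn` of the image of the segment, for example
`((convex_Icc t₁ 1).isPathConnected ..).image` or `p₂.truncate`, `p₂.subpath`.) -/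
def stFoll : Prop := stGam → ∀ {X : Type} [TopologicalSpace X] (S : Set X) (d : X → X → ℝ),
  PM S d → ∀ (a g c : X) (p₁ : Path a g) (p₂ : Path g c), Geod S d p₁ → Geod S d p₂ →
  d a c = d a g + d g c →
  (∀ x ∈ Set.range p₁ ∪ Set.range p₂, d a g < d a x → JoinedIn (S \ Set.range p₁) x c) ∧
  (∀ x ∈ Set.range p₁ ∪ Set.range p₂, d a x < d a g → JoinedIn (S \ Set.range p₂) x a)

/-- **HIT.** First hit. Proof. If `q t ∉ Γ` for all `t` then `x` is joined to `y` in `S \ Γ` by `q`. Else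
`{t | q t ∈ Γ}` is closed and not empty; `t₀` its least element. For `t < t₀` one has `q t ∉ Γ`, so the
part of `q` before `t₀` joins `x` to `q t₀` in `S \ Δ` if `q t₀ ∉ Δ`, `Δ ⊆ Γ`. -/
def stHit : Prop := ∀ {X : Type} [TopologicalSpace X] (S Γ : Set X), IsClosed Γ →
  ∀ v x y : X, JoinedIn (S \ Γ) v x → ∀ q : Path x y, (∀ t, q t ∈ S) →
  JoinedIn (S \ Γ) v y ∨
    ∃ t₀, q t₀ ∈ Γ ∧ ∀ Δ ⊆ Γ, q t₀ ∉ Δ → JoinedIn (S \ Δ) v (q t₀)

/-- **CONTR.** (uses GAM, FOLL, HIT) The two retractions. `L`, `R` are the vertices of the open arcs.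
Proof. `τ x = d a x`, `σ = d a g`, `ℓ = d a c`, `Γ = range p₁ ∪ range p₂` (compact, so closed), `γ`
from GAM.
(1) `Left = {x | ∃ v ∈ L, JoinedIn (S \ Γ) v x}`, `Right` with `R`. They are disjoint by `K1`
(`S \ Γ ⊆ S \ range p₂`). Neither meets `Γ`. Both lie in `S`.
(2) If `x ∈ Left`, `y ∈ S`, `y ∉ Left` there is `ξ ∈ Γ` with `τ ξ ≤ σ`, `d x y = d x ξ + d ξ y`:
take the geodesic `q` from `x` to `y` and HIT: `ξ = q t₀ ∈ Γ` (`fst` with `t = 1`). If `τ ξ > σ` then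
`ξ ∉ range p₁`, so HIT with `Δ = range p₁` gives `JoinedIn (S \ range p₁) v ξ` and FOLL gives
`JoinedIn (S \ range p₁) ξ c`, against `K2`.
(3) If `x ∈ Right`, `y ∈ S`, `y ∉ Right`: `ξ ∈ Γ` with `τ ξ ≥ σ`, `d x y = d x ξ + d ξ y`: the same
with `Δ = range p₂`, `K3`.
(4) `ρ₁ x = x` (Left), `g` (Right), `γ (min (τ x) σ)` (rest);
`ρ₂ x = g` (Left), `x` (Right), `γ (max (min (τ x) ℓ) σ)` (rest).
`D x y = d (ρ₁ x) (ρ₁ y) + d (ρ₂ x) (ρ₂ y)` satisfies the triangle inequality and `D ≤ d` holds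
for two points of the same type (rest: `|min(τx,σ)-min(τy,σ)| + |max(min(τx,ℓ),σ)-max(min(τy,ℓ),σ)|
= |min(τx,ℓ)-min(τy,ℓ)| ≤ |τ x - τ y| ≤ d x y`), for `x ∈ Left`, `ξ ∈ Γ`, `τ ξ ≤ σ`
(`D = d x (γ (τ ξ)) + d g (γ σ) ≤ d x ξ + 0`, as `d ξ (γ (τ ξ)) = 0` and `d g (γ σ) = 0` by GAM),
and for `x ∈ Right`, `ξ ∈ Γ`, `τ ξ ≥ σ`. By (2), (3) and the triangle inequality `D ≤ d` always
(Left-rest: (2), then rest-rest; Right-rest: (3); Left-Right: (2) gives `ξ`, then Right-rest).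
(5) `x ∈ L ∪ {a, g}`: if `x ∉ Γ` then `x ∈ Left` (`x ∈ L`; `a, g ∈ Γ`): `ρ₁ x = x`, `ρ₂ x = g`. If
`x ∈ Γ`: `τ x ≤ σ` (for `x ∈ L` by FOLL and `K2` with `v = x`), so `ρ₁ x = γ (τ x)`,
`d x (γ (τ x)) = 0`, `ρ₂ x = γ σ`, `d g (γ σ) = 0`. Same for `R ∪ {g, c}` (`K3`). -/
def stContr : Prop := stGam → stFoll → stHit →
  ∀ {X : Type} [TopologicalSpace X] [T2Space X] (S : Set X) (d : X → X → ℝ),
  PM S d → (∀ x ∈ S, ∀ y ∈ S, ∃ p : Path x y, Geod S d p) →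
  ∀ (a g c : X) (p₁ : Path a g) (p₂ : Path g c), Geod S d p₁ → Geod S d p₂ →
  d a c = d a g + d g c → ∀ L R : Set X, L ⊆ S → R ⊆ S →
  (∀ v ∈ L, ∀ v' ∈ R, ¬ JoinedIn (S \ Set.range p₂) v v') →
  (∀ v ∈ L, ¬ JoinedIn (S \ Set.range p₁) v c) →
  (∀ v ∈ R, ¬ JoinedIn (S \ Set.range p₂) v a) →
  ∃ ρ₁ ρ₂ : X → X, (∀ x ∈ S, ρ₁ x ∈ S ∧ ρ₂ x ∈ S) ∧
    (∀ x ∈ S, ∀ y ∈ S, d (ρ₁ x) (ρ₁ y) + d (ρ₂ x) (ρ₂ y) ≤ d x y) ∧
    (∀ x, x ∈ L ∨ x = a ∨ x = g → d x (ρ₁ x) = 0 ∧ d g (ρ₂ x) = 0) ∧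
    (∀ x, x ∈ R ∨ x = g ∨ x = c → d g (ρ₁ x) = 0 ∧ d x (ρ₂ x) = 0)

/-- **NETW.** Proof. For every network `E` (nodes in `S`) connecting `A₁ ∪ A₂`:
`E₁ = E.map (ρ₁ × ρ₁) ++ [(x, ρ₁ x) | x ∈ A₁] ++ [(g, ρ₁ x) | x ∈ A₂]` has nodes in `S` and connects
`insert g A₁` (`EqvGen` is preserved under `ρ₁`; `A₂` is not empty), `nlen E₁ = ∑ d (ρ₁ ..) (ρ₁ ..)`;
same for `E₂`; hence `nlen E₁ + nlen E₂ ≤ nlen E` (sum over `E`), and
`StL .. (insert g A₁) + StL .. (insert g A₂) ≤ nlen E` (`csInf_le`, lengths are `≥ 0`). Take the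
infimum over `E` (`le_csInf`; a network exists: the list of all pairs of the finite set). -/
def stNetw : Prop := ∀ {X : Type} (S : Set X) (d : X → X → ℝ), PM S d → ∀ (g : X) (ρ₁ ρ₂ : X → X)
  (A₁ A₂ : Set X), g ∈ S → A₁ ⊆ S → A₂ ⊆ S → A₁.Finite → A₂.Finite → A₁.Nonempty → A₂.Nonempty →
  (∀ x ∈ S, ρ₁ x ∈ S ∧ ρ₂ x ∈ S) →
  (∀ x ∈ S, ∀ y ∈ S, d (ρ₁ x) (ρ₁ y) + d (ρ₂ x) (ρ₂ y) ≤ d x y) →
  (∀ x ∈ A₁, d x (ρ₁ x) = 0 ∧ d g (ρ₂ x) = 0) → (∀ x ∈ A₂, d g (ρ₁ x) = 0 ∧ d x (ρ₂ x) = 0) →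
  StL S d (insert g A₁) + StL S d (insert g A₂) ≤ StL S d (A₁ ∪ A₂)

/-- conclusion of CONTR without its hypotheses GAM, FOLL, HIT -/
def stContr0 : Prop := ∀ {X : Type} [TopologicalSpace X] [T2Space X] (S : Set X)
  (d : X → X → ℝ), PM S d → (∀ x ∈ S, ∀ y ∈ S, ∃ p : Path x y, Geod S d p) →
  ∀ (a g c : X) (p₁ : Path a g) (p₂ : Path g c), Geod S d p₁ → Geod S d p₂ →
  d a c = d a g + d g c → ∀ L R : Set X, L ⊆ S → R ⊆ S →
  (∀ v ∈ L, ∀ v' ∈ R, ¬ JoinedIn (S \ Set.range p₂) v v') →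
  (∀ v ∈ L, ¬ JoinedIn (S \ Set.range p₁) v c) →
  (∀ v ∈ R, ¬ JoinedIn (S \ Set.range p₂) v a) →
  ∃ ρ₁ ρ₂ : X → X, (∀ x ∈ S, ρ₁ x ∈ S ∧ ρ₂ x ∈ S) ∧
    (∀ x ∈ S, ∀ y ∈ S, d (ρ₁ x) (ρ₁ y) + d (ρ₂ x) (ρ₂ y) ≤ d x y) ∧
    (∀ x, x ∈ L ∨ x = a ∨ x = g → d x (ρ₁ x) = 0 ∧ d g (ρ₂ x) = 0) ∧
    (∀ x, x ∈ R ∨ x = g ∨ x = c → d g (ρ₁ x) = 0 ∧ d x (ρ₂ x) = 0)

/-- **PINCH.** (uses GEO, KK, CONTR, NETW, stMet) Proof. `S = Pts V G`,
`d = dK V G P`, `p₁`, `p₂` geodesics from GEO, `L = dl '' {v | v ∈ V ∧ Ccw a v g}`,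
`R = dl '' {v | v ∈ V ∧ Ccw g v c}`; KK gives the hypotheses of CONTR; NETW with
`A₁ = dl '' (B ∩ Arc V a g)`, `A₂ = dl '' (B ∩ Arc V g c)`; `B = (B ∩ Arc V a g) ∪ (B ∩ Arc V g c)`
since `B ⊆ Arc V a c`; a vertex of `Arc V a g` is `a`, `g` or in the open arc. -/
def stPinch' : Prop := stGeo → stKK → stContr0 → stNetw → stMet → stPinch

/-! ## Planarity -/

/-- **BRIDGE.** Proof. Lemma: if all pairs of a list `E'` (nodes in `S`) have length `0` and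
`EqvGen (E') x y` then `x = y` or `x, y ∈ S` and `d x y = 0` (induction). Choose a sublist `E'` of `E`
of least length with `EqvGen (E') w z`. As `0 < d w z` some `e ∈ E'` has `0 < d e`. By minimality
not `EqvGen (E'.erase e) w z`. Let `C_w`, `C_z` be the classes of `w`, `z` for `E'.erase e`
(disjoint). If both or none of `e.1, e.2` were in `C_w` then `C_w` would be closed under the pairs
of `E'` and contain `z`. So exactly one is in `C_w`, exactly one in `C_z`, and they are different ones.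
So both ends of `e` are joined to `w` or `z` in `E'.erase e`, hence in `E.erase e`. The set of all `s`
that are joined in `E.erase e` to `w` or `z` is closed under the pairs of `E`, so it contains
everything joined to `w` in `E`. -/
def stBridge : Prop := ∀ {X : Type} (S : Set X) (d : X → X → ℝ), PM S d →
  ∀ (E : List (X × X)), (∀ e ∈ E, e.1 ∈ S ∧ e.2 ∈ S) → ∀ w z : X, w ∈ S → z ∈ S →
  EqvGen (fun x y => (x, y) ∈ E) w z → 0 < d w z →
  ∃ e ∈ E, 0 < d e.1 e.2 ∧ ∀ s, EqvGen (fun x y => (x, y) ∈ E) w s →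
    EqvGen (fun x y => (x, y) ∈ E.erase e) s w ∨ EqvGen (fun x y => (x, y) ∈ E.erase e) s z

/-- **SPLIT.** Proof. `C = {x | EqvGen (pairs of E without w) a x}`; `w ∉ C` (induction, `a ≠ w`).
`E₁ = E.filter (e.1 ∈ C ∨ e.2 ∈ C)`, `E₂` = the rest. (i) every `x ∈ C` is joined to `a` in `E₁`
(a chain of pairs without `w` starting in `C` stays in `C`). (ii) `w` is joined to `a` in `E₁`:
if no pair of `E` has one end in `C` and the other equal to `w` then `C` is closed under the pairs of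
`E`, and would contain `w`; so there is such a pair, it is in `E₁`; use (i). (iii) for
`x ∉ C` joined to `w` in `E`: the set `{x | x ∈ C ∨ EqvGen E₂ w x}` contains `w` and is closed under
the pairs of `E` in both directions (a pair of `E₁` has both ends in `C ∪ {w}`). -/
def stSplit : Prop := ∀ {X : Type} (E : List (X × X)) (a w : X), a ≠ w →
  EqvGen (fun x y => (x, y) ∈ E) w a →
  ∃ E₁ E₂ : List (X × X), (∀ e ∈ E₁, e ∈ E) ∧ (∀ e ∈ E₂, e ∈ E) ∧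
    (∀ d : X → X → ℝ, nlen d E₁ + nlen d E₂ = nlen d E) ∧
    (∀ x, EqvGen (fun x y => (x, y) ∈ E ∧ x ≠ w ∧ y ≠ w) a x →
      EqvGen (fun x y => (x, y) ∈ E₁) w x) ∧
    (∀ x, ¬ EqvGen (fun x y => (x, y) ∈ E ∧ x ≠ w ∧ y ≠ w) a x →
      EqvGen (fun x y => (x, y) ∈ E) w x → EqvGen (fun x y => (x, y) ∈ E₂) w x)

/-- `z` can be inserted as a node joined to `a` without increasing the length -/
def Ins {X : Type} (S : Set X) (d : X → X → ℝ) (E : List (X × X)) (a z : X) : Prop :=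
  ∃ E' : List (X × X), (∀ e ∈ E', e.1 ∈ S ∧ e.2 ∈ S) ∧ nlen d E' ≤ nlen d E ∧
    (∀ x y, EqvGen (fun x y => (x, y) ∈ E) x y → EqvGen (fun x y => (x, y) ∈ E') x y) ∧
    EqvGen (fun x y => (x, y) ∈ E') a z

/-- **INS.** Proof. Induction on `EqvGen R a b` (with the endpoint fixed: prove for all `x`
joined to `a` by `R`, using `EqvGen` as reflexive transitive closure of the symmetrised relation,
that `x ∈ T` and `JoinedIn {z | z ∈ T ∧ Ins .. a z} a x`). A pair `(x,y)`, `R x y`: path `p` from the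
hypothesis; each point `z = p t` satisfies `Ins`: `E' = (x,z) :: (z,y) :: E.erase (x,y)` has length
`nlen E` and keeps all connections (`(x,y)` is replaced by `x, z, y`), and `a` is joined to `x` in `E`
(`R` is contained in `E`), so to `z` in `E'`. For `a` itself take `E' = E`. -/
def stIns : Prop := ∀ {X : Type} [TopologicalSpace X] (S T : Set X) (d : X → X → ℝ)
  (E : List (X × X)) (R : X → X → Prop), (∀ e ∈ E, e.1 ∈ S ∧ e.2 ∈ S) → T ⊆ S →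
  (∀ x y, R x y → (x, y) ∈ E ∧ ∃ p : Path x y, ∀ t, p t ∈ T ∧ d x y = d x (p t) + d (p t) y) →
  ∀ a b, a ∈ T → EqvGen R a b → JoinedIn {z | z ∈ T ∧ Ins S d E a z} a b

/-- no pair of `E` passes through `w` in its interior -/
def Clean {X : Type} (d : X → X → ℝ) (E : List (X × X)) (w : X) : Prop :=
  ∀ e ∈ E, e.1 ≠ w → e.2 ≠ w → d e.1 e.2 ≠ d e.1 w + d w e.2

/-- **CLEAN.** Proof. Replace every pair `(x,y)` with `x, y ≠ w`, `d x y = d x w + d w y` by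
`(x,w), (w,y)` (`List.flatMap`, or induction on `E`); the other pairs stay. -/
def stClean : Prop := ∀ {X : Type} (S : Set X) (d : X → X → ℝ) (E : List (X × X)) (w : X),
  w ∈ S → (∀ e ∈ E, e.1 ∈ S ∧ e.2 ∈ S) →
  ∃ E' : List (X × X), (∀ e ∈ E', e.1 ∈ S ∧ e.2 ∈ S) ∧ nlen d E' = nlen d E ∧
    (∀ x y, EqvGen (fun x y => (x, y) ∈ E) x y → EqvGen (fun x y => (x, y) ∈ E') x y) ∧
    Clean d E' w

/-- **EDGE.** (uses stApex) Proof. There is `v ∈ V` different from `a`, `b`, so `Ccw a v b` or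
`Ccw b v a` (`Cyc.lean`); stApex gives `c` with `Ccw a c b` (or `Ccw b c a`) adjacent to `a`, `b`
(use `G.symm`), and `St` gives `0 < crs (P c - P a) (P b - P a)` (or
`0 < crs (P c - P b) (P a - P b)`), so `P a ≠ P b`. -/
def stEdge : Prop := stApex → ∀ (N : ℕ) (V : Finset (Fin N)) (G : SimpleGraph (Fin N))
  (P : Fin N → ℂ), IsTri V G → St V G P → 3 ≤ V.card →
  ∀ a ∈ V, ∀ b ∈ V, a ≠ b → G.Adj a b → P a ≠ P b

/-- **MEET.** (uses GEO, BRIDGE, INS, `joined_cross`) Proof. `S = Pts V G`, `d = dK V G P`,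
`W = dl w`. `MetP` gives `PM S d`. INS for `E₁` with `T = S \ {W}` and
`R x y = ((x,y) ∈ E₁ ∧ x ≠ W ∧ y ≠ W)`: the geodesic `p` of GEO from `x` to `y` satisfies
`d x y = d x (p t) + d (p t) y` (`fst` with second time `1`) and avoids `W` by `Clean`. So
`dl a` is joined to `dl b` in `S₁ = {z | z ∈ S \ {W} ∧ Ins S d E₁ (dl a) z}`. INS for `E₂` with
`T = S`, `R` = the pairs of `E₂`: `dl b'` is joined to `W` in
`S₂ = {z | z ∈ S ∧ Ins S d E₂ (dl b') z}`. The cyclic order is `a, b', b, w`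
(`Crs a b b' w`: change of base point in `Cyc.lean`), so by `joined_cross` there is
`z ∈ S₁ ∩ S₂`. Let `E₁'`, `E₂'` be the networks of the two `Ins`. `0 < d W z` by the hypothesis hP
and `nonneg`. `W` is joined to `dl b'` in `E₂`, hence to `z` in `E₂'`; BRIDGE for `E₂'`, `W`, `z`
gives `e`. Put `E = E₁' ++ E₂'.erase e`: `nlen E = nlen E₁' + nlen E₂' - d e.1 e.2 < nlen E₁ + nlen E₂`.
In `E` the point `W` is joined to `dl a` and `z` (by `E₁'`), to everything joined to it in `E₁`,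
and, by BRIDGE, to everything joined to it in `E₂'`, so in `E₂`. -/
def stMeet : Prop := stGeo → stBridge → stIns →
  ∀ (N : ℕ) (V : Finset (Fin N)) (G : SimpleGraph (Fin N)) (P : Fin N → ℂ),
  IsTri V G → MetP V G P →
  (∀ x ∈ Pts V G, ∀ y ∈ Pts V G, dK V G P x y = 0 → x = y) →
  ∀ w ∈ V, ∀ a ∈ V, ∀ b' ∈ V, ∀ b ∈ V, 0 < cyc w a → cyc w a < cyc w b' → cyc w b' < cyc w b →
  ∀ E₁ E₂ : List ((Fin N → ℝ) × (Fin N → ℝ)), (∀ e ∈ E₁, e.1 ∈ Pts V G ∧ e.2 ∈ Pts V G) →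
  (∀ e ∈ E₂, e.1 ∈ Pts V G ∧ e.2 ∈ Pts V G) → Clean (dK V G P) E₁ (dl w) →
  EqvGen (fun x y => (x, y) ∈ E₁) (dl w) (dl a) →
  EqvGen (fun x y => (x, y) ∈ E₁ ∧ x ≠ dl w ∧ y ≠ dl w) (dl a) (dl b) →
  EqvGen (fun x y => (x, y) ∈ E₂) (dl w) (dl b') →
  ∃ E : List ((Fin N → ℝ) × (Fin N → ℝ)), (∀ e ∈ E, e.1 ∈ Pts V G ∧ e.2 ∈ Pts V G) ∧
    nlen (dK V G P) E < nlen (dK V G P) E₁ + nlen (dK V G P) E₂ ∧
    ∀ s, EqvGen (fun x y => (x, y) ∈ E₁) (dl w) s ∨ EqvGen (fun x y => (x, y) ∈ E₂) (dl w) s →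
      EqvGen (fun x y => (x, y) ∈ E) (dl w) s

/-- conclusion of MEET without GEO, BRIDGE, INS -/
def stMeet0 : Prop :=
  ∀ (N : ℕ) (V : Finset (Fin N)) (G : SimpleGraph (Fin N)) (P : Fin N → ℂ),
  IsTri V G → MetP V G P →
  (∀ x ∈ Pts V G, ∀ y ∈ Pts V G, dK V G P x y = 0 → x = y) →
  ∀ w ∈ V, ∀ a ∈ V, ∀ b' ∈ V, ∀ b ∈ V, 0 < cyc w a → cyc w a < cyc w b' → cyc w b' < cyc w b →
  ∀ E₁ E₂ : List ((Fin N → ℝ) × (Fin N → ℝ)), (∀ e ∈ E₁, e.1 ∈ Pts V G ∧ e.2 ∈ Pts V G) →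
  (∀ e ∈ E₂, e.1 ∈ Pts V G ∧ e.2 ∈ Pts V G) → Clean (dK V G P) E₁ (dl w) →
  EqvGen (fun x y => (x, y) ∈ E₁) (dl w) (dl a) →
  EqvGen (fun x y => (x, y) ∈ E₁ ∧ x ≠ dl w ∧ y ≠ dl w) (dl a) (dl b) →
  EqvGen (fun x y => (x, y) ∈ E₂) (dl w) (dl b') →
  ∃ E : List ((Fin N → ℝ) × (Fin N → ℝ)), (∀ e ∈ E, e.1 ∈ Pts V G ∧ e.2 ∈ Pts V G) ∧
    nlen (dK V G P) E < nlen (dK V G P) E₁ + nlen (dK V G P) E₂ ∧
    ∀ s, EqvGen (fun x y => (x, y) ∈ E₁) (dl w) s ∨ EqvGen (fun x y => (x, y) ∈ E₂) (dl w) s →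
      EqvGen (fun x y => (x, y) ∈ E) (dl w) s

/-- **NS.** (uses MEET, SPLIT, CLEAN, LnP) Proof. Suppose `NSsep` and a cut
`(w, B₁, B₂)` with `Ln (insert w B₁) + Ln (insert w B₂) ≤ Ln A`. Let `a₁ ∈ A.erase w` have least
`cyc w`; interchanging `B₁`, `B₂` we may assume `a₁ ∈ B₁`. Claim, by strong induction on
`B₁.card`: there are no `B₁, B₂, E₁, E₂` with `a₁ ∈ B₁`, `B₂` not empty, `B₁, B₂` disjoint,
`B₁ ∪ B₂ = A.erase w`, nodes of `E₁`, `E₂` in `Pts`, `Clean E₁ (dl w)`, `dl w` joined in `E₁` to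
`dl b` for `b ∈ B₁`, in `E₂` for `b ∈ B₂`, `nlen E₁ + nlen E₂ ≤ Ln A`. (The claim gives NS: take `E₁`,
`E₂` from `LnP.att` for `insert w B₁`, `insert w B₂`, and replace `E₁` by CLEAN.)
Proof of the claim. `E_i` connects `dl '' insert w B_i`, so `Ln (insert w B_i) ≤ nlen E_i`
(`csInf_le`; lengths are nonnegative). If the cut respects the cyclic order `NSsep` gives
`Ln A < Ln (insert w B₁) + Ln (insert w B₂) ≤ Ln A`. Otherwise there are `b ∈ B₁`, `b' ∈ B₂`,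
`cyc w b' < cyc w b` (`≤` and `b ≠ b'`, `cyc_inj`); also `0 < cyc w a₁ < cyc w b'`. If `dl b` is joined to
`dl a₁` by the pairs of `E₁` without `dl w`: MEET gives `E` that joins `dl w` to all of `A.erase w`,
so connects `dl '' A`, so `Ln A ≤ nlen E < nlen E₁ + nlen E₂ ≤ Ln A`. Otherwise SPLIT for `E₁`,
`dl a₁`, `dl w` gives `E₁₁`, `E₁₂`; put `C = {v ∈ B₁ | dl v is joined to dl a₁ without dl w}`; the
induction hypothesis for `C`, `B₂ ∪ (B₁ \ C)`, `E₁₁`, `E₂ ++ E₁₂` (`a₁ ∈ C`, `b ∉ C`, so `C` has fewer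
elements; `E₁₁ ⊆ E₁` is clean) gives a contradiction. -/
def stNS' : Prop := stMeet0 → stSplit → stClean →
  ∀ (N : ℕ) (V : Finset (Fin N)) (G : SimpleGraph (Fin N)) (P : Fin N → ℂ), IsTri V G →
  MetP V G P → LnP V G P → (∀ x ∈ Pts V G, ∀ y ∈ Pts V G, dK V G P x y = 0 → x = y) →
  ∀ A ⊆ V, NSsep V G P A → NS V G P A

/-! ## Assembly -/

theorem topPinch_of (h1 : stChp) (h1' : stChp → stGeo) (h2 : stKK) (h3 : stGam) (h4 : stFoll)
    (h5 : stHit) (h6 : stContr) (h7 : stNetw) (h8 : stPinch') : stMet → stPinch :=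
  h8 (h1' h1) h2 (h6 h3 h4 h5) h7

theorem topNS_of (h1 : stChp) (h1' : stChp → stGeo) (h2 : stBridge) (h3 : stSplit) (h4 : stIns)
    (h5 : stClean) (h6 : stEdge) (h7 : stMeet) (h8 : stNS') :
    stMet → stPos → stApex → stLnP → stNS := by
  intro hM hP hA hL N V G P hT hS h3c A hAV hsep
  exact h8 (h7 (h1' h1) h2 h4) h3 h5 N V G P hT (hM N V G P hT) (hL N V G P hT)
    (hP N V G P hT hS (h6 hA N V G P hT hS h3c)) A hAV hsep

end Pool.Agent.Helper93.GP
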